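import Mathlib

/-! Representatives of the cycles of a permutation. -/

set_option autoImplicit false

namespace Pool.Agent.K1H6.PQ

variable {r : ℕ}

theorem mem_periodic (π : Equiv.Perm (Fin r)) (i : Fin r) : i ∈ Function.periodicPts π := by
  refine ⟨orderOf π, orderOf_pos π, ?_⟩
  rw [Function.IsPeriodicPt, Function.IsFixedPt, Equiv.Perm.iterate_eq_pow, pow_orderOf_eq_one]
  rfl

theorem mp_pos (π : Equiv.Perm (Fin r)) (i : Fin r) : 0 < Function.minimalPeriod π i :=
  Function.minimalPeriod_pos_of_mem_periodicPts (mem_periodic π i)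

theorem pow_mp (π : Equiv.Perm (Fin r)) (i : Fin r) : (π ^ Function.minimalPeriod π i) i = i := by
  rw [← Equiv.Perm.iterate_eq_pow]
  exact Function.iterate_minimalPeriod

theorem mp_pow (π : Equiv.Perm (Fin r)) (i : Fin r) (n : ℕ) :
    Function.minimalPeriod π ((π ^ n) i) = Function.minimalPeriod π i := by
  rw [← Equiv.Perm.iterate_eq_pow]
  exact Function.minimalPeriod_apply_iterate (mem_periodic π i) n

theorem mp_inj (π : Equiv.Perm (Fin r)) (i : Fin r) {m n : ℕ}
    (hm : m < Function.minimalPeriod π i) (hn : n < Function.minimalPeriod π i)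
    (h : (π ^ m) i = (π ^ n) i) : m = n := by
  rw [← Equiv.Perm.iterate_eq_pow, ← Equiv.Perm.iterate_eq_pow] at h
  exact Function.iterate_injOn_Iio_minimalPeriod hm hn h

theorem mp_dvd (π : Equiv.Perm (Fin r)) (i : Fin r) {n : ℕ} (h : π ^ n = 1) :
    Function.minimalPeriod π i ∣ n := by
  refine Function.IsPeriodicPt.minimalPeriod_dvd ?_
  rw [Function.IsPeriodicPt, Function.IsFixedPt, Equiv.Perm.iterate_eq_pow, h]
  rfl

/-- Representatives of the cycles. -/
theorem exists_reps (π : Equiv.Perm (Fin r)) : ∃ (ρ : Fin r → Fin r) (s : Fin r → ℕ),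
    (∀ i, s i < Function.minimalPeriod π i) ∧ (∀ i, (π ^ s i) (ρ i) = i) ∧
    (∀ i n, ρ ((π ^ n) i) = ρ i) ∧
    (∀ i, Function.minimalPeriod π (ρ i) = Function.minimalPeriod π i) ∧
    (∀ i m, m < Function.minimalPeriod π i → s ((π ^ m) (ρ i)) = m) ∧
    (∀ i, ρ (ρ i) = ρ i) := by
  classical
  let S : Setoid (Fin r) := Equiv.Perm.SameCycle.setoid π
  let ρ : Fin r → Fin r := fun i => (Quotient.mk S i).out
  have h1 : ∀ i, Equiv.Perm.SameCycle π (ρ i) i := fun i =>
    @Quotient.exact _ S _ _ (Quotient.out_eq (Quotient.mk S i))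
  have hρ : ∀ i n, ρ ((π ^ n) i) = ρ i := by
    intro i n
    have h2 : Quotient.mk S ((π ^ n) i) = Quotient.mk S i := by
      apply Quotient.sound
      change Equiv.Perm.SameCycle π ((π ^ n) i) i
      exact Equiv.Perm.sameCycle_pow_left.2 (Equiv.Perm.SameCycle.refl π i)
    change (Quotient.mk S ((π ^ n) i)).out = _
    rw [h2]
  have h2 : ∀ i, ∃ n : ℕ, n < Function.minimalPeriod π (ρ i) ∧ (π ^ n) (ρ i) = i := by
    intro i
    obtain ⟨n, hn⟩ := (h1 i).exists_nat_pow_eq
    refine ⟨n % Function.minimalPeriod π (ρ i), Nat.mod_lt _ (mp_pos π _), ?_⟩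
    rw [← Equiv.Perm.iterate_eq_pow, Function.iterate_mod_minimalPeriod_eq,
      Equiv.Perm.iterate_eq_pow, hn]
  choose s hs1 hs2 using h2
  have h3 : ∀ i, Function.minimalPeriod π (ρ i) = Function.minimalPeriod π i := by
    intro i
    have := mp_pow π (ρ i) (s i)
    rw [hs2] at this
    exact this.symm
  have h4 : ∀ i, ρ (ρ i) = ρ i := by
    intro i
    have := hρ (ρ i) (s i)
    rw [hs2] at this
    exact this.symm
  refine ⟨ρ, s, fun i => by rw [← h3]; exact hs1 i, hs2, hρ, h3, fun i m hm => ?_, h4⟩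
  have h5 : ρ ((π ^ m) (ρ i)) = ρ i := by rw [hρ, h4]
  have h6 := hs2 ((π ^ m) (ρ i))
  have h7 := hs1 ((π ^ m) (ρ i))
  rw [h5] at h6 h7
  rw [← h3] at hm
  exact mp_inj π (ρ i) h7 hm h6

theorem cyc_sum (π : Equiv.Perm (Fin r)) {ρ : Fin r → Fin r} {s : Fin r → ℕ}
    (h1 : ∀ i, s i < Function.minimalPeriod π i) (h2 : ∀ i, (π ^ s i) (ρ i) = i)
    (h3 : ∀ i n, ρ ((π ^ n) i) = ρ i)
    (h5 : ∀ i m, m < Function.minimalPeriod π i → s ((π ^ m) (ρ i)) = m)
    (h6 : ∀ i, ρ (ρ i) = ρ i) (f : Fin r → ℝ)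
    (hf : ∀ i n, f ((π ^ n) i) = f i) :
    ∑ i, f i * s i = ∑ i, f i * ((Function.minimalPeriod π i - 1) / 2) := by
  classical
  let ι : Fin r → Fin r := fun i => (π ^ (Function.minimalPeriod π i - 1 - s i)) (ρ i)
  have hp : ∀ i, Function.minimalPeriod π (ι i) = Function.minimalPeriod π i := by
    intro i
    have e1 := mp_pow π (ρ i) (Function.minimalPeriod π i - 1 - s i)
    have e2 := mp_pow π (ρ i) (s i)
    rw [h2] at e2
    exact e1.trans e2.symm
  have hs : ∀ i, s (ι i) = Function.minimalPeriod π i - 1 - s i := by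
    intro i
    apply h5
    have := mp_pos π i
    omega
  have hρ : ∀ i, ρ (ι i) = ρ i := by
    intro i
    change ρ ((π ^ _) (ρ i)) = _
    rw [h3, h6]
  have hι : Function.Involutive ι := by
    intro i
    change (π ^ (Function.minimalPeriod π (ι i) - 1 - s (ι i))) (ρ (ι i)) = i
    rw [hp, hs, hρ]
    have e1 : Function.minimalPeriod π i - 1 - (Function.minimalPeriod π i - 1 - s i) = s i := by
      have := h1 i
      omega
    rw [e1, h2]
  have hfι : ∀ i, f (ι i) = f i := by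
    intro i
    have e1 := hf (ρ i) (Function.minimalPeriod π i - 1 - s i)
    have e2 := hf (ρ i) (s i)
    rw [h2] at e2
    exact e1.trans e2.symm
  have e1 : ∑ i, f i * (s i : ℝ) = ∑ i, f (ι i) * (s (ι i) : ℝ) :=
    (Equiv.sum_comp (hι.toPerm ι) (fun i => f i * (s i : ℝ))).symm
  have e2 : ∑ i, f i * (s i : ℝ) + ∑ i, f (ι i) * (s (ι i) : ℝ) =
      ∑ i, f i * (Function.minimalPeriod π i - 1) := by
    rw [← Finset.sum_add_distrib]
    refine Finset.sum_congr rfl fun i _ => ?_
    rw [hfι, hs]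
    have := h1 i
    have e3 : ((Function.minimalPeriod π i - 1 - s i : ℕ) : ℝ) =
        Function.minimalPeriod π i - 1 - s i := by
      rw [Nat.cast_sub (by omega), Nat.cast_sub (by omega)]
      push_cast
      ring
    rw [e3]
    ring
  rw [← e1] at e2
  have e4 : ∑ i, f i * (((Function.minimalPeriod π i : ℝ) - 1) / 2) =
      (∑ i, f i * (Function.minimalPeriod π i - 1)) / 2 := by
    rw [Finset.sum_div]
    refine Finset.sum_congr rfl fun i _ => ?_
    ring
  rw [e4, ← e2]
  ring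

end Pool.Agent.K1H6.PQ
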