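import Pool.Agent.K1H6.PQ.Tame
import Pool.Agent.K1H6.PQ.Kod

/-! The order of a product form at a place, in terms of coordinates which mix the factors. -/

set_option autoImplicit false
set_option linter.overlappingInstances false
set_option linter.unusedSectionVars false
set_option linter.unusedVariables false

open FF IntermediateField Pool.Agent.W619.PQ Pool.Agent.W619.PL Pool.Agent.W619.TW
  Pool.Agent.W603.LV Pool.Agent.W619.Y Pool.Agent.W672.PG Pool.Agent.W824.PG Pool.Agent.Y174
  Pool.Agent.K1H17.IS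

namespace Pool.Agent.K1H6.PQ

section

variable {k : Type} {L : Type} [Field k] [CharZero k] [Field L] [Algebra k L]

theorem ord_prod {ι : Type*} [Fintype ι] (w : Place k L) (R : ι → L) (hR : ∀ j, R j ≠ 0) :
    w.ord (∏ j, R j) = ∑ j, w.ord (R j) := by
  classical
  have h1 : ∀ s : Finset ι, w.ord (∏ q ∈ s, R q) = ∑ q ∈ s, w.ord (R q) := by
    intro s
    induction s using Finset.induction_on with
    | empty => simp [w.ord_one]
    | insert b s hb ih =>
      rw [Finset.prod_insert hb, Finset.sum_insert hb,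
        w.ord_mul (hR b) (Finset.prod_ne_zero_iff.2 fun q _ => hR q), ih]
  exact h1 Finset.univ

theorem est_gen {r μ : ℕ} {a : Fin r → ℕ} (M : Fin r → IntermediateField k L) {w : Place k L}
    (y : ∀ i, Fin (a i) → M i) (c : ∀ i, M i)
    (X : ∀ i, Fin (a i) → M i) (hX : ∀ i, IsTranscendenceBasis k (X i))
    (E' : ∀ i, Fin (a i) → Derivation k (M i) (M i))
    (hE' : ∀ i p q, E' i p (X i q) = if p = q then 1 else 0)
    (R : (Σ i, Fin (a i)) → L) (hR : ∀ j, R j ≠ 0) (B : (Σ i, Fin (a i)) → (Σ i, Fin (a i)) → k)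
    (hB : ∀ b : (Σ i, Fin (a i)), (X b.1 b.2 : L) = ∑ j, algebraMap k L (B b j) * R j)
    (γ : Fin r → ℝ)
    (hγ : ∀ i, GeR w (γ i) (((Matrix.of fun p q => E' i p (y i q)).det ^ μ * c i : M i) : L))
    (D : (Σ i, Fin (a i)) → Derivation k L L) (hD : ∀ j, Pres w (D j))
    (hl : ∀ j z, w.Reg (D j z / z)) :
    GeR w (∑ i, γ i + μ * ∑ j, (w.ord (R j) : ℝ))
      ((Matrix.of fun i j : (Σ i, Fin (a i)) => D i (y j.1 j.2 : L)).det ^ μ *
          ∏ i, (c i : L)) := by
  classical
  let P : Matrix (Σ i, Fin (a i)) (Σ i, Fin (a i)) L := Matrix.of fun i j => D i (R j) / R j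
  let A : ∀ i, Matrix (Fin (a i)) (Fin (a i)) L := fun i =>
    Matrix.of fun p q => ((E' i q (y i p) : M i) : L)
  let Bm : Matrix (Σ i, Fin (a i)) (Σ i, Fin (a i)) L := Matrix.of fun b j => algebraMap k L (B b j)
  let Z : Matrix (Σ i, Fin (a i)) (Σ i, Fin (a i)) L :=
    Matrix.blockDiagonal' A * (Bm * Matrix.diagonal R)
  have hmat : (Matrix.of fun i j : (Σ i, Fin (a i)) => D i (y j.1 j.2 : L)) = P * Z.transpose := by
    ext i ⟨b1, b2⟩
    rw [Matrix.of_apply, Matrix.mul_apply]
    refine (Pool.Agent.W308.PG.YLOC.expand (X b1) (E' b1) (hX b1) (hE' b1) (D i)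
      (y b1 b2)).trans ?_
    have e1 : ∀ q, D i (X b1 q : L) = ∑ j, Bm ⟨b1, q⟩ j * D i (R j) := by
      intro q
      rw [hB ⟨b1, q⟩, map_sum]
      refine Finset.sum_congr rfl fun j _ => ?_
      rw [(D i).leibniz, Derivation.map_algebraMap, smul_zero, add_zero, smul_eq_mul]
      rfl
    have e2 : ∀ j, Z ⟨b1, b2⟩ j = (∑ q, A b1 b2 q * Bm ⟨b1, q⟩ j) * R j := by
      intro j
      simp only [Z]
      rw [← mul_assoc, Matrix.mul_diagonal, Matrix.mul_apply, Fintype.sum_sigma,
        Finset.sum_eq_single b1]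
      · simp only [Matrix.blockDiagonal'_apply_eq]
      · intro l _ hl'
        refine Finset.sum_eq_zero fun q _ => ?_
        rw [Matrix.blockDiagonal'_apply_ne A _ _ (Ne.symm hl'), zero_mul]
      · intro h
        exact absurd (Finset.mem_univ b1) h
    simp only [Matrix.transpose_apply, e2, P, Matrix.of_apply]
    have e3 : ∀ j, D i (R j) / R j * ((∑ q, A b1 b2 q * Bm ⟨b1, q⟩ j) * R j) =
        ∑ q, A b1 b2 q * (Bm ⟨b1, q⟩ j * D i (R j)) := by
      intro j
      have := hR j
      have e4 : D i (R j) / R j * ((∑ q, A b1 b2 q * Bm ⟨b1, q⟩ j) * R j) =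
        (∑ q, A b1 b2 q * Bm ⟨b1, q⟩ j) * D i (R j) := by
        field_simp
      rw [e4, Finset.sum_mul]
      refine Finset.sum_congr rfl fun q _ => ?_
      ring
    simp only [e3]
    rw [Finset.sum_comm]
    refine Finset.sum_congr rfl fun q _ => ?_
    rw [← Finset.mul_sum]
    change ((E' b1 q (y b1 b2) : M b1) : L) * D i (X b1 q : L) = _
    rw [e1]
    rfl
  have hP : Ge w 0 P.det := ge_det w _ fun i j => hl i (R j)
  have hBm : Ge w 0 Bm.det := ge_det w _ fun i j => Ge.const (P := w) (B i j)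
  have hA : ∀ i, (A i).det = (((Matrix.of fun p q => E' i p (y i q)).det : M i) : L) := by
    intro i
    have h1 : (A i) = ((algebraMap (M i) L).mapMatrix
        (Matrix.of fun p q => E' i p (y i q))).transpose := by
      ext p q
      rfl
    rw [h1, Matrix.det_transpose, ← RingHom.map_det]
    rfl
  have hZ : Z.det = (∏ i, (A i).det) * (Bm.det * ∏ j, R j) := by
    simp only [Z]
    rw [Matrix.det_mul, det_blk', Matrix.det_mul, Matrix.det_diagonal]
  rw [hmat, Matrix.det_mul, Matrix.det_transpose, hZ]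
  have e : (P.det * ((∏ i, (A i).det) * (Bm.det * ∏ j, R j))) ^ μ * ∏ i, (c i : L) =
      (∏ i, (((Matrix.of fun p q => E' i p (y i q)).det ^ μ * c i : M i) : L)) *
        ((∏ j, R j) ^ μ) * (P.det * Bm.det) ^ μ := by
    have e1 : ∀ i, ((((Matrix.of fun p q => E' i p (y i q)).det ^ μ * c i : M i) : L)) =
        (A i).det ^ μ * (c i : L) := by
      intro i
      rw [hA]
      push_cast
      rfl
    simp only [e1]
    rw [Finset.prod_mul_distrib, Finset.prod_pow]
    ring
  rw [e]
  have h1 : GeR w (∑ i, γ i)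
      (∏ i, (((Matrix.of fun p q => E' i p (y i q)).det ^ μ * c i : M i) : L)) := by
    have : ∀ s : Finset (Fin r), GeR w (∑ i ∈ s, γ i)
        (∏ i ∈ s, (((Matrix.of fun p q => E' i p (y i q)).det ^ μ * c i : M i) : L)) := by
      intro s
      induction s using Finset.induction_on with
      | empty =>
        rw [Finset.sum_empty, Finset.prod_empty]
        have := Ge.toR (Ge.one (P := w))
        simpa using this
      | insert i s hi ih =>
        rw [Finset.sum_insert hi, Finset.prod_insert hi]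
        exact (hγ i).mul ih
    exact this Finset.univ
  have h2 : GeR w (μ * ∑ j, (w.ord (R j) : ℝ)) ((∏ j, R j) ^ μ) := by
    have h3 : GeR w (∑ j, (w.ord (R j) : ℝ)) (∏ j, R j) := by
      right
      rw [ord_prod w R hR]
      push_cast
      exact le_rfl
    exact h3.pow μ
  refine ((h1.mul h2).mul (Ge.toR ((hP.mul hBm).pow μ))).mono ?_
  push_cast
  linarith

end

end Pool.Agent.K1H6.PQ
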