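import Pool.Agent.K1H6.PQ.Ram

/-! Pluricanonical forms on one factor, with weights, for the stabilizer of the factor. -/

set_option autoImplicit false
set_option linter.overlappingInstances false
set_option linter.unusedSectionVars false
set_option linter.unusedVariables false
set_option linter.style.haveILetI false

open FF IntermediateField Pool.Agent.W619.PQ Pool.Agent.W619.PL Pool.Agent.W619.TW
  Pool.Agent.W603.LV Pool.Agent.W619.Y Pool.Agent.W672.PG Pool.Agent.W824.PG Pool.Agent.Y174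
  Pool.Agent.K1H17.IS

namespace Pool.Agent.K1H6.PQ

section

variable {k : Type} {L : Type} [Field k] [CharZero k] [Field L] [Algebra k L]
variable (M : IntermediateField k L) (G : Subgroup (L ≃ₐ[k] L))

/-- The weight of the automorphism `g` of a factor: `0` if it is trivial, and `max (1 / t) s` if it has
order `t ≥ 2`. -/
noncomputable def wgt (M : IntermediateField k L) (g : L ≃ₐ[k] L) (s : ℝ) : ℝ :=
  if ordOn M g = 1 then 0 else max (1 / (ordOn M g : ℝ)) s

theorem wgt_nonneg (g : L ≃ₐ[k] L) (s : ℝ) : 0 ≤ wgt M g s := by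
  unfold wgt
  split_ifs
  · exact le_rfl
  · exact le_max_of_le_left (by positivity)

theorem wgt_mono (g : L ≃ₐ[k] L) {s s' : ℝ} (h : s ≤ s') : wgt M g s ≤ wgt M g s' := by
  unfold wgt
  split_ifs
  · exact le_rfl
  · exact max_le_max le_rfl h

theorem wgt_of_le (g : L ≃ₐ[k] L) {s : ℝ} (h : s ≤ 0) : wgt M g s = wgt M g 0 := by
  unfold wgt
  split_ifs
  · rfl
  · have h1 : (0 : ℝ) ≤ 1 / (ordOn M g : ℝ) := by positivity
    rw [max_eq_left (h.trans h1), max_eq_left h1]

theorem index_ge {w : Place k L} {g : L ≃ₐ[k] L} (hI : Inert w g) (hfin : IsOfFinOrder g)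
    {u : Place k M} {c : ℕ} (hu : Over w u c) : (orderOf g : ℝ) * wgt M g 0 ≤ c := by
  have ht := ordOn_spec M hfin
  unfold wgt
  set t := ordOn M g with htd
  have hc0 : (0 : ℝ) ≤ c := Nat.cast_nonneg c
  by_cases ht1 : t = 1
  · rw [if_pos ht1, mul_zero]
    exact hc0
  · rw [if_neg ht1]
    obtain ⟨x, hx0, hx⟩ := u.surj
    have h3 : w.ord (x : L) = c := by
      have := hu.2 x
      rw [hx, mul_one] at this
      exact this
    have h4 := dvd_ord (inert_pow hI t) hfin.pow (z := (x : L))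
      (fun h => hx0 (Subtype.ext h)) (ht.2 x x.2)
    rw [h3] at h4
    have h5 : orderOf (g ^ t) ∣ c := by exact_mod_cast h4
    have h6 : orderOf (g ^ t) ≤ c := Nat.le_of_dvd hu.1 h5
    have h7 : orderOf g ≤ orderOf (g ^ t) * t := by
      have h8 : orderOf g ∣ orderOf (g ^ t) * t := by
        rw [orderOf_dvd_iff_pow_eq_one, mul_comm, pow_mul, pow_orderOf_eq_one]
      exact Nat.le_of_dvd (Nat.mul_pos hfin.pow.orderOf_pos ht.1) h8
    have h8 : (orderOf g : ℝ) ≤ orderOf (g ^ t) * t := by exact_mod_cast h7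
    have h9 : (orderOf (g ^ t) : ℝ) ≤ c := by exact_mod_cast h6
    have ht0 : (0 : ℝ) < t := by exact_mod_cast ht.1
    rw [max_eq_left (by positivity), mul_one_div, div_le_iff₀ ht0]
    nlinarith

theorem triv_of_place {w : Place k L} {g : L ≃ₐ[k] L} (hI : Inert w g)
    (hgM : ∀ z ∈ M, g z ∈ M) (h0 : ∀ f : M, w.ord (f : L) = 0) (s : ℝ) : wgt M g s = 0 := by
  have htriv : ActsTrivially M g := by
    by_contra hcon
    obtain ⟨f, hf⟩ := nontriv' M hgM hcon hI
    exact hf (h0 f)
  unfold wgt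
  rw [if_pos (ordOn_one_of_triv M htriv)]

/-- The output for one factor. -/
def FacP (a A : ℕ) (s : (L ≃ₐ[k] L) → ℝ) (y : Fin a → M) (E : Fin a → Derivation k M M)
    (n m : ℕ) : Prop :=
  ∀ T r : ℕ, 1 ≤ r →
    ∃ F : Fin (A + 1) → (Fin a → Derivation k M M) → M,
      (∀ l, IsPluriForm k M a (T * n + r * m) (F l)) ∧ (∀ l, F l E ≠ 0) ∧
      AlgebraicIndependent k (fun l : Fin A => F l.succ E / F 0 E) ∧
      (∀ l (u : Place k M), IsDivisorial u a → LogGe a u (F l) ((T * n + r * m : ℕ) : ℝ)) ∧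
      ∀ (N : ℕ) (w : Place k L), Algebra.trdeg k L = N → IsDivisorial w N →
        ∀ g ∈ G, IsOfFinOrder g → Inert w g → ∀ l, WLog w M a (F l)
          (T * n * (orderOf g * wgt M g (s g)) + r * m * (orderOf g * wgt M g 0))

variable [Finite G]

theorem facp_orb (hGM : ∀ g ∈ G, ∀ z ∈ M, g z ∈ M) {a A : ℕ} (hM : Algebra.trdeg k M = a)
    (hessM : Algebra.EssFiniteType k M)
    {s : (L ≃ₐ[k] L) → ℝ} (hs : OrbEffective M G a s) (hω : KodTr k M a A)
    (y0 : Fin a → ↥(M ⊓ fixedField G)) (hy0 : IsTranscendenceBasis k y0)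
    (hy : IsTranscendenceBasis k
      (fun i => inclusion (inf_le_left : M ⊓ fixedField G ≤ M) (y0 i)))
    (E : Fin a → Derivation k M M)
    (hE : ∀ i j, E i (inclusion (inf_le_left : M ⊓ fixedField G ≤ M) (y0 j)) =
        if i = j then 1 else 0) :
    ∃ n m : ℕ, 1 ≤ n ∧ 1 ≤ m ∧ FacP M G a A s
      (fun i => inclusion (inf_le_left : M ⊓ fixedField G ≤ M) (y0 i)) E n m := by
  obtain ⟨δ, hδ, hη⟩ := hs
  letI := qalg M G
  haveI := qtower M G
  haveI := qalgebraic M G hGM
  haveI := qfinite M G hGM hessM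
  obtain ⟨n, m, hn1, hm1, hF⟩ := forms_A (qtrdeg M G hGM hM) hM (qess M G hGM hessM y0 hy0) hessM
    hη hω y0 hy0 E hE
  refine ⟨n, m, hn1, hm1, fun T r hr => ?_⟩
  obtain ⟨F, hF1, hF2, hF3, hF4⟩ := hF T r hr
  have hlog : ∀ l (u : Place k M), IsDivisorial u a →
      LogGe a u (F l) ((T * n + r * m : ℕ) : ℝ) := by
    intro l u hu
    obtain ⟨e, v, huv⟩ := Pool.Agent.W73.PG.PULL.exists_over' (K := ↥(M ⊓ fixedField G)) u
    refine (hF4 l u v e huv hu).mono ?_
    have h1 := (hδ u v e huv).1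
    have h2 : (0 : ℝ) ≤ T * n := by positivity
    have h3 := mul_le_mul_of_nonneg_left h1 h2
    push_cast
    linarith
  refine ⟨F, hF1, hF2, hF3, hlog, ?_⟩
  intro N w hn hw g hg hfin hI l
  refine ⟨fun u c hu => ?_, fun h0 => ?_⟩
  · obtain ⟨e1, q, hq⟩ := Pool.Agent.W73.PG.PULL.exists_over' (K := ↥(M ⊓ fixedField G)) u
    have hdiv : IsDivisorial u a := Pool.Agent.Y174.pDIVR k M L a N u w c hM hn hu hw
    refine (hF4 l u q e1 hq hdiv).mono ?_
    have hc1 : 0 < c := hu.1
    have hc : (0 : ℝ) < c := by exact_mod_cast hc1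
    have hle : (orderOf g : ℝ) ≤ c * e1 := by
      obtain ⟨t, ht0, ht⟩ := q.surj
      have h1 := hq.2 t
      have h2 := hu.2 (algebraMap ↥(M ⊓ fixedField G) M t)
      rw [h1, ht, mul_one] at h2
      have h3 : g (algebraMap M L (algebraMap ↥(M ⊓ fixedField G) M t)) =
          algebraMap M L (algebraMap ↥(M ⊓ fixedField G) M t) := t.2.2 ⟨g, hg⟩
      have h4 := dvd_ord hI hfin (z := algebraMap M L (algebraMap ↥(M ⊓ fixedField G) M t))
        (by simpa using ht0) h3
      rw [h2] at h4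
      have h5 : orderOf g ∣ c * e1 := by exact_mod_cast h4
      have h6 := Nat.le_of_dvd (Nat.mul_pos hc1 hq.1) h5
      exact_mod_cast h6
    have hidx := index_ge M hI hfin hu
    have h3' := (hδ u q e1 hq).1
    have hδ1 : 0 ≤ 1 - δ q := by
      by_contra hcon
      push Not at hcon
      have he1 : (0 : ℝ) ≤ e1 := Nat.cast_nonneg _
      have := mul_nonpos_of_nonneg_of_nonpos he1 hcon.le
      linarith
    have hkey : (orderOf g : ℝ) * wgt M g (s g) ≤ c * (e1 * (1 - δ q)) := by
      have h5 : (c : ℝ) ≤ c * (e1 * (1 - δ q)) := by nlinarith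
      have h6 : (0 : ℝ) ≤ orderOf g := Nat.cast_nonneg _
      by_cases ht : ordOn M g = 1
      · unfold wgt
        rw [if_pos ht, mul_zero]
        linarith
      · have hna : ¬ ActsTrivially M g := fun h => ht (ordOn_one_of_triv M h)
        have h2 := (hδ u q e1 hq).2 g hg hna (fixes_of_inert M hI hu)
        unfold wgt at hidx ⊢
        rw [if_neg ht] at hidx ⊢
        rw [max_eq_left (by positivity)] at hidx
        rw [mul_max_of_nonneg _ _ h6]
        apply max_le
        · linarith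
        · have h7 : (orderOf g : ℝ) * s g ≤ orderOf g * (1 - δ q) :=
            mul_le_mul_of_nonneg_left (by linarith) h6
          have h8 : (orderOf g : ℝ) * (1 - δ q) ≤ (c * e1) * (1 - δ q) :=
            mul_le_mul_of_nonneg_right hle hδ1
          linarith
    rw [div_le_iff₀ hc]
    have h8 := mul_le_mul_of_nonneg_left hkey (show (0 : ℝ) ≤ T * n by positivity)
    have h9 := mul_le_mul_of_nonneg_left hidx (show (0 : ℝ) ≤ r * m by positivity)
    nlinarith
  · rw [triv_of_place M hI (hGM g hg) h0, triv_of_place M hI (hGM g hg) h0]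
    simp

theorem facp_free (hGM : ∀ g ∈ G, ∀ z ∈ M, g z ∈ M) {a A : ℕ} (hM : Algebra.trdeg k M = a)
    (hessM : Algebra.EssFiniteType k M)
    {s : (L ≃ₐ[k] L) → ℝ} (hs : ∀ g ∈ G, s g ≤ 0) (hω : KodTr k M a A)
    (y : Fin a → M) (hy : IsTranscendenceBasis k y)
    (E : Fin a → Derivation k M M) (hE : ∀ i j, E i (y j) = if i = j then 1 else 0) :
    ∃ n m : ℕ, 1 ≤ n ∧ 1 ≤ m ∧ FacP M G a A s y E n m := by
  obtain ⟨m, hm, ω, hω1, hω2, hω3, hω4⟩ := pairKod_form (pairKod_zero.2 hω) y hy E hE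
  have hlog0 : ∀ l (u : Place k M), IsDivisorial u a → LogGe a u (ω l) m := by
    intro l u hu
    have h2 : LogGe a u (ω l) (m + 0) := by
      refine logGe_of_reg hM hessM hu (ω l) (hω1 l) fun D hD => ?_
      have h3 := hω2 l u hu D hD
      simpa using h3
    simpa using h2
  refine ⟨m, m, hm, hm, fun T r hr => ?_⟩
  have hF1 : ∀ l, IsPluriForm k M a (T * m + r * m) (fun D => ω l D ^ (T + r)) := by
    intro l
    rw [← add_mul]
    exact pluri_pow (hω1 l) _
  have hlog : ∀ l (u : Place k M), IsDivisorial u a →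
      LogGe a u (fun D => ω l D ^ (T + r)) ((T * m + r * m : ℕ) : ℝ) := by
    intro l u hu
    refine ((hlog0 l u hu).pow (T + r)).mono ?_
    push_cast
    apply le_of_eq
    ring
  refine ⟨fun l D => ω l D ^ (T + r), hF1, fun l => pow_ne_zero _ (hω3 l), ?_, hlog, ?_⟩
  · have h1 : (fun l : Fin A => ω l.succ E ^ (T + r) / ω 0 E ^ (T + r)) =
        fun l : Fin A => (ω l.succ E / ω 0 E) ^ (T + r) := by
      funext l
      rw [div_pow]
    rw [h1]
    exact indep_pow _ hω4 _ (by omega)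
  · intro N w hn hw g hg hfin hI l
    rw [wgt_of_le M g (hs g hg)]
    refine ⟨fun u c hu => ?_, fun h0 => ?_⟩
    · have hdiv : IsDivisorial u a := Pool.Agent.Y174.pDIVR k M L a N u w c hM hn hu hw
      refine (hlog l u hdiv).mono ?_
      have hc1 : 0 < c := hu.1
      have hc : (0 : ℝ) < c := by exact_mod_cast hc1
      have hidx := index_ge M hI hfin hu
      rw [div_le_iff₀ hc]
      have h9 := mul_le_mul_of_nonneg_left hidx (show (0 : ℝ) ≤ T * m + r * m by positivity)
      push_cast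
      linarith
    · rw [triv_of_place M hI (hGM g hg) h0]
      simp

end

end Pool.Agent.K1H6.PQ
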