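import Pool.Agent.K1H6.PQ.Fac

/-! Abundance for quotients of products by finite groups which permute the factors. -/

set_option autoImplicit false
set_option linter.overlappingInstances false
set_option linter.unusedSectionVars false
set_option linter.unusedVariables false

open FF IntermediateField Pool.Agent.W619.PQ Pool.Agent.W619.PL Pool.Agent.W619.TW
  Pool.Agent.W603.LV Pool.Agent.W619.Y Pool.Agent.W672.PG Pool.Agent.W824.PG Pool.Agent.Y174
  Pool.Agent.K1H17.IS

namespace Pool.Agent.K1H6.PQ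

/-- `L` is the function field of the product of the varieties `W i` of dimensions `a i` with function
fields `M i`, and the group `G` acts on the product: `g` in `G` permutes the factors as `σ g`. -/
structure IsPermuted {k L : Type} [Field k] [Field L] [Algebra k L] {r : ℕ}
    (M : Fin r → IntermediateField k L) (a : Fin r → ℕ) (G : Subgroup (L ≃ₐ[k] L))
    (σ : G →* Equiv.Perm (Fin r)) : Prop where
  ess : ∀ i, Algebra.EssFiniteType k (M i)
  trdeg : ∀ i, Algebra.trdeg k (M i) = a i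
  total : Algebra.trdeg k L = (∑ i, a i : ℕ)
  sup : (⨆ i, M i) = ⊤
  perm : ∀ (g : G) i, ∀ z ∈ M i, (g : L ≃ₐ[k] L) z ∈ M (σ g i)

section

variable {k : Type} [Field k] {L : Type} [Field L] [Algebra k L]

/-- The stabilizer in `G` of the factor `i`. -/
def stab {r : ℕ} {G : Subgroup (L ≃ₐ[k] L)} (σ : G →* Equiv.Perm (Fin r)) (i : Fin r) :
    Subgroup (L ≃ₐ[k] L) :=
  ((MulAction.stabilizer (Equiv.Perm (Fin r)) i).comap σ).map G.subtype

theorem mem_stab {r : ℕ} {G : Subgroup (L ≃ₐ[k] L)} (σ : G →* Equiv.Perm (Fin r)) (i : Fin r)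
    (g : L ≃ₐ[k] L) : g ∈ stab σ i ↔ ∃ h : G, σ h i = i ∧ (h : L ≃ₐ[k] L) = g := by
  unfold stab
  rw [Subgroup.mem_map]
  rfl

/-- The sum over the cycles `c` of the permutation `π` (of length `l`, on factors of dimension `a`) of
`a (l - 1) / 2`, plus the mean over `i` in `c` of `max (1 / t) (s i (g ^ l))` if `g ^ l` acts on the
factors with order `t ≥ 2`. (In the sum below every cycle of length `l` is counted `l` times with
the factor `1 / l`.) -/
noncomputable def age {r : ℕ} (M : Fin r → IntermediateField k L) (a : Fin r → ℕ)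
    (π : Equiv.Perm (Fin r)) (s : Fin r → (L ≃ₐ[k] L) → ℝ) (g : L ≃ₐ[k] L) : ℝ :=
  ∑ i, (1 / (Function.minimalPeriod π i : ℝ)) *
    (a i * ((Function.minimalPeriod π i : ℝ) - 1) / 2 +
      wgt (M i) (g ^ Function.minimalPeriod π i) (s i (g ^ Function.minimalPeriod π i)))

/-- The numerical criterion. -/
def AgeCond {r : ℕ} (M : Fin r → IntermediateField k L) (a : Fin r → ℕ)
    (G : Subgroup (L ≃ₐ[k] L)) (σ : G →* Equiv.Perm (Fin r)) (s : Fin r → (L ≃ₐ[k] L) → ℝ) : Prop :=
  ∀ g : G, g ≠ 1 → (∃ i, σ g i ≠ i ∧ 2 ≤ a i) ∨ 1 ≤ age M a (σ g) (fun _ _ => 0) g ∨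
    1 < age M a (σ g) s g

theorem age_eq {r : ℕ} (M : Fin r → IntermediateField k L) (a : Fin r → ℕ)
    (π : Equiv.Perm (Fin r)) (s : Fin r → (L ≃ₐ[k] L) → ℝ) (g : L ≃ₐ[k] L) :
    age M a π s g = permAge a π + ∑ i, (1 / (Function.minimalPeriod π i : ℝ)) *
      wgt (M i) (g ^ Function.minimalPeriod π i) (s i (g ^ Function.minimalPeriod π i)) := by
  unfold age permAge
  rw [← Finset.sum_add_distrib]
  refine Finset.sum_congr rfl fun i _ => ?_
  rw [mul_add]

end

section

variable {k : Type} [Field k] [CharZero k] {L : Type} [Field L] [Algebra k L]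

theorem perm_term_nonneg {r : ℕ} (a : Fin r → ℕ) (π : Equiv.Perm (Fin r)) (i : Fin r) :
    0 ≤ (1 / (Function.minimalPeriod π i : ℝ)) *
      (a i * ((Function.minimalPeriod π i : ℝ) - 1) / 2) := by
  have h1 : (1 : ℝ) ≤ Function.minimalPeriod π i := by exact_mod_cast mp_pos π i
  have h3 : (0 : ℝ) ≤ a i * ((Function.minimalPeriod π i : ℝ) - 1) / 2 := by
    have : (0 : ℝ) ≤ (Function.minimalPeriod π i : ℝ) - 1 := by linarith
    positivity
  have h4 : (0 : ℝ) ≤ 1 / (Function.minimalPeriod π i : ℝ) := by positivity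
  exact mul_nonneg h4 h3

theorem permAge_nonneg {r : ℕ} (a : Fin r → ℕ) (π : Equiv.Perm (Fin r)) : 0 ≤ permAge a π :=
  Finset.sum_nonneg fun i _ => perm_term_nonneg a π i

theorem wsum_nonneg {r : ℕ} (M : Fin r → IntermediateField k L) (π : Equiv.Perm (Fin r))
    (s : Fin r → (L ≃ₐ[k] L) → ℝ) (g : L ≃ₐ[k] L) :
    0 ≤ ∑ i, (1 / (Function.minimalPeriod π i : ℝ)) *
      wgt (M i) (g ^ Function.minimalPeriod π i) (s i (g ^ Function.minimalPeriod π i)) :=
  Finset.sum_nonneg fun i _ => mul_nonneg (by positivity) (wgt_nonneg _ _ _)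

/-- The condition holds for `g` if `g` moves a factor of dimension at least `2`. -/
theorem permAge_ge {r : ℕ} (a : Fin r → ℕ)
    (π : Equiv.Perm (Fin r)) (ha : ∀ i, a (π i) = a i) {i : Fin r} (hi : π i ≠ i)
    (h2 : 2 ≤ a i) : 1 ≤ permAge a π := by
  classical
  have ha' : ∀ n : ℕ, a ((π ^ n) i) = a i := by
    intro n
    induction n with
    | zero => rfl
    | succ n ih => rw [pow_succ']; exact (ha _).trans ih
  set l := Function.minimalPeriod π i with hl
  have hl1 : 2 ≤ l := by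
    have h0 := mp_pos π i
    by_contra hcon
    have h1 : l = 1 := by omega
    have h3 := pow_mp π i
    rw [← hl, h1, pow_one] at h3
    exact hi h3
  have hl0 : (0 : ℝ) < l := by
    have : 0 < l := by omega
    exact_mod_cast this
  let S : Finset (Fin r) := (Finset.range l).image fun n => (π ^ n) i
  have hcard : S.card = l := by
    rw [Finset.card_image_of_injOn, Finset.card_range]
    intro m hm n hn hmn
    rw [Finset.coe_range] at hm hn
    exact mp_inj π i hm hn hmn
  unfold permAge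
  refine le_trans ?_ (Finset.sum_le_sum_of_subset_of_nonneg (Finset.subset_univ S)
    fun j _ _ => perm_term_nonneg a π j)
  have h3 : ∀ j ∈ S, (1 / (l : ℝ)) * (a i * ((l : ℝ) - 1) / 2) =
      (1 / (Function.minimalPeriod π j : ℝ)) *
      (a j * ((Function.minimalPeriod π j : ℝ) - 1) / 2) := by
    intro j hj
    obtain ⟨n, -, rfl⟩ := Finset.mem_image.1 hj
    rw [mp_pow, ha', ← hl]
  rw [← Finset.sum_congr rfl h3]
  rw [Finset.sum_const, hcard, nsmul_eq_mul, ← mul_assoc, mul_one_div_cancel hl0.ne', one_mul]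
  have h5 : (2 : ℝ) ≤ a i := by exact_mod_cast h2
  have h6 : (2 : ℝ) ≤ l := by exact_mod_cast hl1
  nlinarith

end

section

variable {k : Type} [Field k] [CharZero k] [IsAlgClosed k]
variable {L : Type} [Field L] [Algebra k L] {r : ℕ} {M : Fin r → IntermediateField k L}
  {a : Fin r → ℕ} {G : Subgroup (L ≃ₐ[k] L)} {σ : G →* Equiv.Perm (Fin r)}

theorem IsPermuted.essL (h : IsPermuted M a G σ) : Algebra.EssFiniteType k L := by
  have h1 : Algebra.EssFiniteType k ↥(⨆ i, M i) :=
    essFiniteType_iff.2 (fg_iSup fun j => essFiniteType_iff.1 (h.ess j))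
  rw [h.sup] at h1
  exact (Algebra.EssFiniteType.iff_of_algEquiv (IntermediateField.topEquiv (F := k) (E := L))).1 h1

theorem IsPermuted.dim (h : IsPermuted M a G σ) (g : G) (i : Fin r) : a (σ g i) = a i := by
  have h1 := (resEquiv (g : L ≃ₐ[k] L) (h.perm g i) (M' := M (σ g i)) (fun z hz => by
    rw [mem_F_iff h.perm g i, AlgEquiv.apply_symm_apply]
    exact hz)).trdeg_eq
  rw [h.trdeg, h.trdeg] at h1
  exact_mod_cast h1.symm

theorem IsPermuted.stable (h : IsPermuted M a G σ) (i : Fin r) :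
    ∀ g ∈ stab σ i, ∀ z ∈ M i, g z ∈ M i := by
  intro g hg z hz
  obtain ⟨g', hg', rfl⟩ := (mem_stab σ i g).1 hg
  have := h.perm g' i z hz
  rwa [hg'] at this

theorem IsPermuted.kod [Finite G] (h : IsPermuted M a G σ) (s : Fin r → (L ≃ₐ[k] L) → ℝ)
    (hs : ∀ i, (∀ g ∈ stab σ i, s i g ≤ 0) ∨ OrbEffective (M i) (stab σ i) (a i) (s i))
    (hg : AgeCond M a G σ s)
    {A : Fin r → ℕ} (hA : ∀ i, KodTr k (M i) (a i) (A i)) :
    KodTr k (fixedField G) (∑ i, a i) (∑ i, A i) ∧
      KodGe k (fixedField G) (∑ i, a i) (fun _ => False) (∑ i, A i) := by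
  classical
  have hess := h.essL
  have halg : Algebra.IsAlgebraic ↥(⨆ i, M i) L := by
    rw [h.sup]
    exact ⟨fun z => isAlgebraic_algebraMap (⟨z, trivial⟩ : (⊤ : IntermediateField k L))⟩
  have hfinst : ∀ i, Finite (stab σ i) := by
    intro i
    have hle : ∀ g : stab σ i, (g : L ≃ₐ[k] L) ∈ G := by
      rintro ⟨g, hg⟩
      obtain ⟨g', -, rfl⟩ := (mem_stab σ i g).1 hg
      exact g'.2
    exact Finite.of_injective (fun g : stab σ i => (⟨g, hle g⟩ : G)) (fun g g' hgg =>
      Subtype.ext (congrArg (fun z : G => (z : L ≃ₐ[k] L)) hgg))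
  have hg' : ∀ g : G, g ≠ 1 → 1 ≤ age M a (σ g) (fun _ _ => 0) g ∨ 1 < age M a (σ g) s g := by
    intro g hg1
    rcases hg g hg1 with ⟨i, hi, hi2⟩ | h1
    · left
      rw [age_eq]
      have h1 := permAge_ge a (σ g) (h.dim g) hi hi2
      have h2 := wsum_nonneg M (σ g) (fun _ _ => 0) (g : L ≃ₐ[k] L)
      linarith
    · exact h1
  have hfac : ∀ i, ∃ (y : Fin (a i) → M i) (E : Fin (a i) → Derivation k (M i) (M i)) (n m : ℕ),
      IsTranscendenceBasis k y ∧ (∀ p q, E p (y q) = if p = q then 1 else 0) ∧ 1 ≤ n ∧ 1 ≤ m ∧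
      FacP (M i) (stab σ i) (a i) (A i) (s i) y E n m := by
    intro i
    obtain ⟨y0, E, hy0, hy, hE⟩ := exists_coords (M i) (stab σ i) (h.stable i) (h.trdeg i)
    rcases hs i with h1 | h1
    · obtain ⟨n, m, h2, h3, h4⟩ := facp_free (M i) (stab σ i) (h.stable i) (h.trdeg i) (h.ess i)
        h1 (hA i) _ hy E hE
      exact ⟨_, E, n, m, hy, hE, h2, h3, h4⟩
    · obtain ⟨n, m, h2, h3, h4⟩ := facp_orb (M i) (stab σ i) (h.stable i) (h.trdeg i) (h.ess i)
        h1 (hA i) y0 hy0 hy E hE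
      exact ⟨_, E, n, m, hy, hE, h2, h3, h4⟩
  choose y E n m hy hE hn1 hm1 hF using hfac
  have hb : BddAbove (Set.range fun g : G => ⌈1 / (age M a (σ g) s g - 1)⌉₊) :=
    (Set.finite_range _).bddAbove
  obtain ⟨T, hT0⟩ := hb
  have hT : ∀ g : G, 1 < age M a (σ g) s g → 1 ≤ T * (age M a (σ g) s g - 1) := by
    intro g hlt
    have h1 : ⌈1 / (age M a (σ g) s g - 1)⌉₊ ≤ T := hT0 ⟨g, rfl⟩
    have h2 : 1 / (age M a (σ g) s g - 1) ≤ (T : ℝ) := (Nat.le_ceil _).trans (by exact_mod_cast h1)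
    have h3 : 0 < age M a (σ g) s g - 1 := by linarith
    rwa [div_le_iff₀ h3] at h2
  let Q : ℕ := ∏ i, (n i * m i)
  have hQ : 1 ≤ Q := by
    have h0 : 0 < ∏ i, (n i * m i) := Finset.prod_pos fun i _ => Nat.mul_pos (hn1 i) (hm1 i)
    exact h0
  have hQi : ∀ i, n i * m i ∣ Q := fun i => Finset.dvd_prod_of_mem _ (Finset.mem_univ i)
  have hQn : ∀ i, ∃ p, Q = n i * p := fun i => (dvd_mul_right _ _).trans (hQi i)
  have hQm : ∀ i, ∃ p, Q = m i * p := fun i => (dvd_mul_left _ _).trans (hQi i)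
  choose p hp using hQn
  choose q hq using hQm
  have hq1 : ∀ i, 1 ≤ q i := by
    intro i
    by_contra hcon
    have : q i = 0 := by omega
    have h1 := hq i
    rw [this, mul_zero] at h1
    omega
  have hwt : ∀ i, T * p i * n i + q i * m i = T * Q + Q := by
    intro i
    have h1 := hp i
    have h2 := hq i
    calc T * p i * n i + q i * m i = T * (n i * p i) + m i * q i := by ring
      _ = T * Q + Q := by rw [← h1, ← h2]
  choose F hF1 hF2 hF3 hF4 hF5 using fun i => hF i (T * p i) (q i) (hq1 i)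
  simp only [hwt] at hF1 hF4 hF5
  have h1 : KodTr k (fixedField G) (∑ i, a i) (∑ i, A i) := by
    refine kod_prodP (μ := T * Q + Q) (by omega) M halg h.total h.trdeg hess h.ess G y hy E hE F hF1
      hF2 hF3 hF4 ?_
    intro v hv w e hwv he2 hin t D hD hl
    obtain ⟨g, hgG, hg1, hord, hI⟩ := hin
    have hw := divisorial_up hwv hv
    set g' : G := ⟨g, hgG⟩ with hg'd
    have hfin : IsOfFinOrder g := by
      have h3 : IsOfFinOrder g' := isOfFinOrder_of_finite _
      exact (Submonoid.isOfFinOrder_coe (H := G.toSubmonoid) (x := g')).2 h3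
    set π : Equiv.Perm (Fin r) := σ g' with hπ
    have hge : g' ^ e = 1 := by
      apply Subtype.ext
      have : ((g' ^ e : G) : L ≃ₐ[k] L) = g ^ e := rfl
      rw [this, ← hord, pow_orderOf_eq_one]
      rfl
    have hπe : π ^ e = 1 := by rw [hπ, ← map_pow, hge, map_one]
    let l : Fin r → ℕ := fun i => Function.minimalPeriod π i
    have hl0 : ∀ i, 0 < l i := fun i => mp_pos π i
    have hordl : ∀ i, (orderOf (g ^ l i) : ℝ) = e * (1 / (l i : ℝ)) := by
      intro i
      have h2 : orderOf (g ^ l i) = e / l i := by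
        rw [← hord]
        exact orderOf_pow_of_dvd (hl0 i).ne' (hord ▸ mp_dvd π i hπe)
      have h3 : e = e / l i * l i := (Nat.div_mul_cancel (mp_dvd π i hπe)).symm
      have h4 : (l i : ℝ) ≠ 0 := by exact_mod_cast (hl0 i).ne'
      rw [h2, mul_one_div, eq_div_iff h4]
      exact_mod_cast h3.symm
    have hst : ∀ i, g ^ l i ∈ stab σ i := by
      intro i
      refine (mem_stab σ i _).2 ⟨g' ^ l i, ?_, rfl⟩
      rw [map_pow]
      exact pow_mp π i
    have h3 := ram M halg h.total h.trdeg h.ess σ h.perm hw g' hI (μ := T * Q + Q) y hy E hE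
      (fun i => F i (t i)) (fun i => hF1 i _) _
      (fun i => hF5 i _ w h.total hw (g ^ l i) (hst i) hfin.pow (inert_pow hI _) (t i)) D hD hl
    refine h3.mono ?_
    change (((T * Q + Q : ℕ) : ℝ) * e) ≤ _ + ((T * Q + Q : ℕ) : ℝ) * ((orderOf g : ℝ) * permAge a π)
    rw [hord]
    have hsum : ∑ i, (((T * p i : ℕ) : ℝ) * n i * (orderOf (g ^ l i) *
        wgt (M i) (g ^ l i) (s i (g ^ l i))) + q i * m i * (orderOf (g ^ l i) *
          wgt (M i) (g ^ l i) 0)) =
        (T : ℝ) * Q * (e * ∑ i, (1 / (l i : ℝ)) * wgt (M i) (g ^ l i) (s i (g ^ l i))) +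
          Q * (e * ∑ i, (1 / (l i : ℝ)) * wgt (M i) (g ^ l i) 0) := by
      rw [Finset.mul_sum, Finset.mul_sum, Finset.mul_sum, Finset.mul_sum, ← Finset.sum_add_distrib]
      refine Finset.sum_congr rfl fun i _ => ?_
      have h3 : ((q i : ℝ) * m i) = Q := by
        rw [hq i]; push_cast; ring
      have h4 : ((p i : ℝ) * n i) = Q := by
        rw [hp i]; push_cast; ring
      have h5 : (((T * p i : ℕ) : ℝ) * n i) = T * Q := by
        push_cast
        rw [mul_assoc, h4]
      rw [hordl, h3, h5]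
      ring
    rw [hsum]
    have hs1 := age_eq M a π s g
    have hs0 := age_eq M a π (fun _ _ => 0) g
    have hpa := permAge_nonneg a π
    have hw0 := wsum_nonneg M π (fun _ _ => 0) g
    have hcond := hg' g' (fun h0 => hg1 (congrArg Subtype.val h0))
    have hle : age M a π (fun _ _ => 0) g ≤ age M a π s g := by
      rw [age_eq, age_eq]
      have h7 : ∀ i, wgt (M i) (g ^ Function.minimalPeriod π i) 0 ≤
          wgt (M i) (g ^ Function.minimalPeriod π i) (s i (g ^ Function.minimalPeriod π i)) := by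
        intro i
        unfold wgt
        split_ifs
        · exact le_rfl
        · exact max_le (le_max_left _ _) (le_max_of_le_left (by positivity))
      have := Finset.sum_le_sum fun i (_ : i ∈ Finset.univ) =>
        mul_le_mul_of_nonneg_left (h7 i)
          (show (0 : ℝ) ≤ 1 / (Function.minimalPeriod π i : ℝ) by positivity)
      linarith
    have hkey : (T : ℝ) + 1 ≤ T * age M a π s g + age M a π (fun _ _ => 0) g := by
      have hT00 : (0 : ℝ) ≤ T := Nat.cast_nonneg T
      rcases hcond with h5 | h5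
      · have h5' : 1 ≤ age M a π (fun _ _ => 0) g := h5
        have h6 : 1 ≤ age M a π s g := h5'.trans hle
        nlinarith
      · have h6 : 1 ≤ (T : ℝ) * (age M a π s g - 1) := hT g' h5
        have h7 : 0 ≤ age M a π (fun _ _ => 0) g := by
          rw [hs0]
          linarith
        nlinarith
    have hQe : (0 : ℝ) ≤ (Q : ℝ) * e := by positivity
    have h8 := mul_le_mul_of_nonneg_left hkey hQe
    rw [hs1, hs0] at h8
    push_cast
    change (Q : ℝ) * e * (T + 1) ≤ Q * e * (T * (permAge a π + ∑ i, (1 / (l i : ℝ)) *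
      wgt (M i) (g ^ l i) (s i (g ^ l i))) + (permAge a π + ∑ i, (1 / (l i : ℝ)) *
      wgt (M i) (g ^ l i) 0)) at h8
    linarith
  have hfinL : FiniteDimensional (fixedField G) L := by
    have hGal : IsGaloisGroup G (fixedField G) L := isGaloisGroup_fixed G
    exact IsGaloisGroup.finiteDimensional G (fixedField G) L
  have hnK : Algebra.trdeg k (fixedField G) = (∑ i, a i : ℕ) := by
    rw [← h.total, ← trdeg_add_eq k (fixedField G) (A := L),
      trdeg_eq_zero (R := fixedField G) (A := L), add_zero]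
  exact ⟨h1, Pool.Agent.W300.PG.TRGE.main k (fixedField G) _ _ hnK h1⟩

theorem IsPermuted.num [Finite G] (h : IsPermuted M a G σ) :
    (IsPsef k (fixedField G) (∑ i, a i) (fun _ => False) →
      ∀ i, IsPsef k (M i) (a i) (fun _ => False)) ∧
    (∀ i, NumNeg k (M i) (a i) (fun _ => False) →
      NumNeg k (fixedField G) (∑ i, a i) (fun _ => False)) ∧
    ∀ A : Fin r → ℕ, (∀ i, NumLe k (M i) (a i) (fun _ => False) (A i)) →
      NumLe k (fixedField G) (∑ i, a i) (fun _ => False) (∑ i, A i) := by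
  have hess := h.essL
  obtain ⟨h1, h2, h3⟩ := many r L M a h.ess h.trdeg h.total h.sup
  obtain ⟨d1, d2, d3⟩ := down (∑ i, a i) h.total G
  exact ⟨fun hX => h1 (d1 hX), fun i hi => d2 (h2 i hi), fun A hA => d3 _ (h3 A hA)⟩

theorem IsPermuted.abundance [Finite G] (h : IsPermuted M a G σ)
    (s : Fin r → (L ≃ₐ[k] L) → ℝ)
    (hs : ∀ i, (∀ g ∈ stab σ i, s i g ≤ 0) ∨ OrbEffective (M i) (stab σ i) (a i) (s i))
    (hg : AgeCond M a G σ s)
    (hA : ∀ i, Abundance k (M i) (a i)) : Abundance k (fixedField G) (∑ i, a i) := by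
  obtain ⟨-, h2, h3⟩ := h.num
  by_cases hneg : ∃ i, NumNeg k (M i) (a i) (fun _ => False)
  · obtain ⟨i, hi⟩ := hneg
    exact Or.inl (h2 i hi)
  · push Not at hneg
    choose A hA1 hA2 using fun i => (hA i).resolve_left (hneg i)
    exact Or.inr ⟨∑ i, A i, (h.kod s hs hg hA1).1, h3 A hA2⟩

end

end Pool.Agent.K1H6.PQ
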