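import Pool.Agent.K1H6.PQ.Est2

/-! Good coordinates on a factor. -/

set_option autoImplicit false
set_option linter.overlappingInstances false
set_option linter.unusedSectionVars false
set_option linter.unusedVariables false

open FF IntermediateField Pool.Agent.W619.PQ Pool.Agent.W619.PL Pool.Agent.W619.TW
  Pool.Agent.W603.LV Pool.Agent.W619.Y Pool.Agent.W672.PG Pool.Agent.W824.PG Pool.Agent.Y174
  Pool.Agent.K1H17.IS

namespace Pool.Agent.K1H6.PQ

section

variable {k : Type} {L : Type} [Field k] [Field L] [Algebra k L]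

/-- The order of the automorphism of the variety with function field `M` which is induced by `g`:
the least `t ≥ 1` such that `g ^ t` acts trivially on it. -/
noncomputable def ordOn (M : IntermediateField k L) (g : L ≃ₐ[k] L) : ℕ :=
  sInf {t : ℕ | 0 < t ∧ ActsTrivially M (g ^ t)}

theorem ordOn_spec (M : IntermediateField k L) {g : L ≃ₐ[k] L} (hg : IsOfFinOrder g) :
    0 < ordOn M g ∧ ActsTrivially M (g ^ ordOn M g) := by
  have : (orderOf g) ∈ {t : ℕ | 0 < t ∧ ActsTrivially M (g ^ t)} := by
    refine ⟨hg.orderOf_pos, fun z _ => ?_⟩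
    rw [pow_orderOf_eq_one]
    rfl
  exact Nat.sInf_mem ⟨_, this⟩

theorem ordOn_one_of_triv (M : IntermediateField k L) {g : L ≃ₐ[k] L}
    (h : ActsTrivially M g) : ordOn M g = 1 := by
  have h1 : (1 : ℕ) ∈ {t : ℕ | 0 < t ∧ ActsTrivially M (g ^ t)} := by
    refine ⟨one_pos, ?_⟩
    rw [pow_one]
    exact h
  have h2 : ordOn M g ≤ 1 := Nat.sInf_le h1
  have h3 : 0 < ordOn M g := (Nat.sInf_mem ⟨_, h1⟩ : ordOn M g ∈ {t : ℕ | 0 < t ∧ _}).1
  omega

theorem ordOn_congr {M M' : IntermediateField k L} {g : L ≃ₐ[k] L}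
    (h : ∀ t : ℕ, ActsTrivially M (g ^ t) ↔ ActsTrivially M' (g ^ t)) : ordOn M g = ordOn M' g := by
  unfold ordOn
  simp only [h]

/-- The isomorphism of two subfields induced by an automorphism. -/
def resEquiv (h : L ≃ₐ[k] L) {M M' : IntermediateField k L} (h1 : ∀ z ∈ M, h z ∈ M')
    (h2 : ∀ z ∈ M', h.symm z ∈ M) : M ≃ₐ[k] M' where
  toFun z := ⟨h z, h1 z z.2⟩
  invFun z := ⟨h.symm z, h2 z z.2⟩
  left_inv z := Subtype.ext (h.symm_apply_apply z)
  right_inv z := Subtype.ext (h.apply_symm_apply z)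
  map_mul' a b := Subtype.ext (map_mul h (a : L) b)
  map_add' a b := Subtype.ext (map_add h (a : L) b)
  commutes' c := Subtype.ext (h.commutes c)

theorem resEquiv_coe (h : L ≃ₐ[k] L) {M M' : IntermediateField k L} (h1 : ∀ z ∈ M, h z ∈ M')
    (h2 : ∀ z ∈ M', h.symm z ∈ M) (z : M) : (resEquiv h h1 h2 z : L) = h z := rfl

end

section

variable {k : Type} {L : Type} [Field k] [CharZero k] [Field L] [Algebra k L]

/-- The logarithmic order along `w` of a form on the factor is at least `γ`. -/
def WLog (w : Place k L) (M : IntermediateField k L) (n : ℕ) (s : (Fin n → Derivation k M M) → M)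
    (γ : ℝ) : Prop :=
  (∀ (u : Place k M) (c : ℕ), Over w u c → LogGe n u s (γ / c)) ∧
    ((∀ f : M, w.ord (f : L) = 0) → γ ≤ 0)

/-- Good coordinates. -/
def GoodX (w : Place k L) (M : IntermediateField k L) (n : ℕ) (X : Fin n → M) : Prop :=
  IsTranscendenceBasis k X ∧
    ∀ E : Fin n → Derivation k M M, (∀ p q, E p (X q) = if p = q then 1 else 0) →
      ∀ (μ : ℕ) (s : (Fin n → Derivation k M M) → M), IsPluriForm k M n μ s →
        ∀ γ : ℝ, WLog w M n s γ → GeR w (γ - μ * ∑ q, (w.ord (X q : L) : ℝ)) (s E : L)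

theorem good_cast {w : Place k L} {M : IntermediateField k L} {n : ℕ} {X : Fin n → M}
    (h : GoodX w M n X) {m : ℕ} (hm : m = n) : GoodX w M m (fun q => X (Fin.cast hm q)) := by
  subst hm
  exact h

theorem divisorial_pull {F F' : IntermediateField k L} (e : F ≃ₐ[k] F') {u : Place k F'} {n : ℕ}
    (hu : IsDivisorial u n) : IsDivisorial (pullPlace e u) n := by
  obtain ⟨y, hy⟩ := hu
  refine ⟨fun i => e.symm (y i), fun p hp => ?_⟩
  have h1 : MvPolynomial.aeval (fun i => e.symm (y i)) p = e.symm (MvPolynomial.aeval y p) := by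
    exact (MvPolynomial.comp_aeval_apply (f := y) (e.symm : F' →ₐ[k] F) p).symm
  obtain ⟨h2, h3⟩ := hy p hp
  rw [h1]
  refine ⟨by simpa using h2, ?_⟩
  change u.ord (e (e.symm _)) = 0
  rw [AlgEquiv.apply_symm_apply, h3]

theorem logGe_pull2 {F F' : IntermediateField k L} (e : F ≃ₐ[k] F') {n : ℕ}
    {s : (Fin n → Derivation k F' F') → F'} {γ : ℝ} {u : Place k F}
    (hl : LogGe n (pullPlace e.symm u) s γ) :
    LogGe n u (fun D => e.symm (s fun i => pushDer e (D i))) γ := by
  intro D hD hlD
  have hreg : ∀ z : F, u.Reg z → (pullPlace e.symm u).Reg (e z) := by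
    intro z hz
    rcases hz with hz | hz
    · left; rw [hz, map_zero]
    · right
      change 0 ≤ u.ord (e.symm (e z))
      rwa [AlgEquiv.symm_apply_apply]
  have hreg' : ∀ z : F', (pullPlace e.symm u).Reg z → u.Reg (e.symm z) := by
    intro z hz
    rcases hz with hz | hz
    · left; rw [hz, map_zero]
    · right; exact hz
  have h1 := hl (fun i => pushDer e (D i)) (fun j z hz => hreg _ (hD j _ (hreg' z hz)))
    (fun j z => by
      have h2 := hreg _ (hlD j (e.symm z))
      rw [map_div₀, AlgEquiv.apply_symm_apply] at h2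
      exact h2)
  rcases h1 with h1 | h1
  · left
    change e.symm _ = 0
    rw [h1, map_zero]
  · right
    exact h1

theorem pushDer_push {F F' : IntermediateField k L} (e : F ≃ₐ[k] F') (D : Derivation k F' F') :
    pushDer e (pushDer e.symm D) = D := by
  ext z
  rw [pushDer_apply, pushDer_apply]
  congr 1
  rw [AlgEquiv.apply_symm_apply]
  congr 1
  exact e.apply_symm_apply z

theorem good_push {w : Place k L} {F F' : IntermediateField k L} (e : F ≃ₐ[k] F')
    (he : ∀ z : F, w.ord (e z : L) = w.ord (z : L)) {n : ℕ} {X : Fin n → F}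
    (h : GoodX w F n X) : GoodX w F' n (fun q => e (X q)) := by
  refine ⟨e.isTranscendenceBasis h.1, fun E hE μ s hs γ hl => ?_⟩
  have hlF : WLog w F n (fun D => e.symm (s fun i => pushDer e (D i))) γ := by
    refine ⟨fun u c hu => logGe_pull2 e (hl.1 _ c ⟨hu.1, fun f => ?_⟩), fun h0 => hl.2 fun f => ?_⟩
    · have h1 := hu.2 (e.symm f)
      have h2 := he (e.symm f)
      rw [AlgEquiv.apply_symm_apply] at h2
      change w.ord (f : L) = c * u.ord (e.symm f)
      rw [h2]
      exact h1
    · have h2 := he (e.symm f)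
      rw [AlgEquiv.apply_symm_apply] at h2
      rw [h2, h0]
  have h1 := h.2 (fun p => pushDer e.symm (E p)) (fun p q => by
    rw [pushDer_apply]
    change e.symm (E p (e (X q))) = _
    rw [hE]
    split_ifs <;> simp) μ _ (pluri_push e hs) γ hlF
  have h2 : (fun i => pushDer e (pushDer e.symm (E i))) = E := by
    funext i
    exact pushDer_push e (E i)
  have h3 : ((e.symm (s fun i => pushDer e (pushDer e.symm (E i))) : F) : L) =
      ((e.symm (s E) : F) : L) := by rw [h2]
  change GeR w _ ((e.symm (s fun i => pushDer e (pushDer e.symm (E i))) : F) : L) at h1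
  rw [h3] at h1
  have h4 : ∀ q, w.ord (e (X q) : L) = w.ord (X q : L) := fun q => he (X q)
  simp only [h4]
  rcases h1 with h1 | h1
  · left
    have h5 : e.symm (s E) = 0 := Subtype.ext h1
    have h6 : s E = 0 := by simpa using h5
    rw [h6]
    rfl
  · right
    have h5 := he (e.symm (s E))
    rw [AlgEquiv.apply_symm_apply] at h5
    rw [h5]
    exact h1

/-- Existence of good coordinates. -/
theorem good_exists {w : Place k L} {N : ℕ} (hw : IsDivisorial w N) (hn : Algebra.trdeg k L = N)
    (M : IntermediateField k L) {a : ℕ} (ha : Algebra.trdeg k M = a)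
    (hess : Algebra.EssFiniteType k M) {g : L ≃ₐ[k] L} (hI : Inert w g) (hfin : IsOfFinOrder g)
    (h1 : ∀ z ∈ M, g z ∈ M) (h2 : ∀ z ∈ M, g.symm z ∈ M) :
    ∃ X : Fin a → M, GoodX w M a X ∧ (∀ q, g (X q : L) = X q) ∧
      (∀ q, Ge w 0 (X q : L)) := by
  classical
  by_cases hT : ∃ f : M, w.ord (algebraMap M L f) ≠ 0
  · obtain ⟨c, u, hu⟩ := exists_over (K := M) w hT
    have hdiv : IsDivisorial u a := Pool.Agent.Y174.pDIVR k M L a N u w c ha hn hu hw
    let g' : M ≃ₐ[k] M := resEquiv g h1 h2
    have hpow : ∀ (n : ℕ) (z : M), (((g' ^ n) z : M) : L) = (g ^ n) (z : L) := by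
      intro n
      induction n with
      | zero => intro z; rfl
      | succ n ih =>
        intro z
        rw [pow_succ', pow_succ']
        change g (((g' ^ n) z : M) : L) = g ((g ^ n) (z : L))
        rw [ih]
    have hg' : IsOfFinOrder g' := by
      obtain ⟨n, hn0, hn1⟩ := isOfFinOrder_iff_pow_eq_one.1 hfin
      refine isOfFinOrder_iff_pow_eq_one.2 ⟨n, hn0, AlgEquiv.ext fun z => Subtype.ext ?_⟩
      rw [hpow, hn1]
      rfl
    obtain ⟨X, hX, hinv, hreg, hform⟩ := tame ha hess g' hg' hdiv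
    refine ⟨X, ⟨hX, fun E hE μ s hs γ hl => ?_⟩, fun q => congrArg Subtype.val (hinv q),
      fun q => hu.reg.2 (hreg q)⟩
    have h3 := (hform E hE μ s hs _ (hl.1 u c hu)).up hu
    refine h3.mono ?_
    have h4 : ∀ q, (w.ord (X q : L) : ℝ) = c * u.ord (X q) := by
      intro q
      have := hu.2 (X q)
      exact_mod_cast this
    have hc0 : (c : ℝ) ≠ 0 := by
      have : 0 < c := hu.1
      exact_mod_cast this.ne'
    simp only [h4]
    rw [← Finset.mul_sum]
    apply le_of_eq
    field_simp
  · push Not at hT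
    have htriv : ActsTrivially M g := by
      by_contra hcon
      obtain ⟨f, hf⟩ := nontriv' M h1 hcon hI
      exact hf (hT f)
    obtain ⟨X, hX⟩ := Pool.Agent.W636.PG.exists_basis k M a ha
    have h0 : ∀ f : M, w.ord (f : L) = 0 := hT
    refine ⟨X, ⟨hX, fun E hE μ s hs γ hl => ?_⟩, fun q => htriv _ (X q).2,
      fun q => Or.inr (h0 _).ge⟩
    right
    simp only [h0]
    have := hl.2 h0
    simpa using this

end

end Pool.Agent.K1H6.PQ
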