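import Pool.Agent.K1H17.IS.Fm

/-! Quotients of products by groups which permute the factors: local lemmas. -/

set_option autoImplicit false
set_option linter.overlappingInstances false
set_option linter.unusedSectionVars false
set_option linter.unusedVariables false

open FF IntermediateField Pool.Agent.W619.PQ Pool.Agent.W619.PL Pool.Agent.W619.TW
  Pool.Agent.W603.LV Pool.Agent.W619.Y Pool.Agent.W672.PG Pool.Agent.W824.PG Pool.Agent.Y174
  Pool.Agent.K1H17.IS

namespace Pool.Agent.K1H6.PQ

section

variable {k : Type} {L : Type} [Field k] [CharZero k] [Field L] [Algebra k L]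

theorem inert_pow {w : Place k L} {h : L ≃ₐ[k] L} (hI : Inert w h) (n : ℕ) : Inert w (h ^ n) := by
  induction n with
  | zero => intro z hz; left; simp
  | succ n ih =>
    intro z hz
    have e : (h ^ (n + 1)) z - z = ((h ^ n) (h z) - h z) + (h z - z) := by
      have : (h ^ (n + 1)) z = (h ^ n) (h z) := by rw [pow_succ]; rfl
      rw [this]; ring
    rw [e]
    have h1 := hI z hz
    have h2 : Ge w 0 (h z) := by
      have := (h1.mono (show (0 : ℤ) ≤ 1 by norm_num)).add hz
      simpa using this
    exact (ih _ h2).add h1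

theorem inert_inv {w : Place k L} {h : L ≃ₐ[k] L} (hI : Inert w h) (hfin : IsOfFinOrder h) :
    Inert w h⁻¹ := by
  obtain ⟨n, hn, h1⟩ := isOfFinOrder_iff_pow_eq_one.1 hfin
  have : h⁻¹ = h ^ (n - 1) := by
    rw [inv_eq_iff_mul_eq_one, ← pow_succ', Nat.sub_add_cancel hn, h1]
  rw [this]
  exact inert_pow hI _

theorem inert_zpow {w : Place k L} {h : L ≃ₐ[k] L} (hI : Inert w h) (hfin : IsOfFinOrder h)
    (n : ℤ) : Inert w (h ^ n) := by
  cases n with
  | ofNat n => rw [Int.ofNat_eq_natCast, zpow_natCast]; exact inert_pow hI n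
  | negSucc n =>
    rw [zpow_negSucc]
    exact inert_inv (inert_pow hI _) hfin.pow

/-- The order of an inert automorphism divides the orders of the fixed functions. -/
theorem dvd_ord {w : Place k L} {h : L ≃ₐ[k] L} (hI : Inert w h) (hfin : IsOfFinOrder h) {z : L}
    (hz : z ≠ 0) (hfix : h z = z) : (orderOf h : ℤ) ∣ w.ord z := by
  classical
  have hf : Finite (Subgroup.zpowers h) := hfin.finite_zpowers
  obtain ⟨g, -, hord, hg⟩ := exists_generator (G := Subgroup.zpowers h) w ⊤ (fun g _ => by
    obtain ⟨n, hn⟩ := g.2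
    simp only at hn
    rw [← hn]
    exact inert_zpow hI hfin n)
  have h1 : Nat.card (⊤ : Subgroup (Subgroup.zpowers h)) = orderOf h := by
    rw [Subgroup.card_top, Nat.card_zpowers]
  rw [h1] at hg
  refine hg z hz ?_
  obtain ⟨n, hn⟩ := g.2
  simp only at hn
  rw [← hn]
  have key : ∀ m : ℕ, (h ^ m) z = z := by
    intro m
    induction m with
    | zero => simp
    | succ m ih =>
      have : (h ^ (m + 1)) z = (h ^ m) (h z) := by rw [pow_succ]; rfl
      rw [this, hfix, ih]
  cases n with
  | ofNat n => rw [Int.ofNat_eq_natCast, zpow_natCast]; exact key n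
  | negSucc n =>
    rw [zpow_negSucc]
    have h2 := key (n + 1)
    change (h ^ (n + 1)).symm z = z
    rw [AlgEquiv.symm_apply_eq]
    exact h2.symm

/-- The forms `a (dz) ^ m` with `z` small. -/
theorem lg_small {w : Place k L} {d m : ℕ} (z : Fin d → L) (hz : ∀ q, z q ≠ 0) {a : L}
    (ha : Ge w 0 a) : LG w m z a (m * ∑ q, (w.ord (z q) : ℝ)) := by
  classical
  refine ⟨Matrix.diagonal z, fun q D => D (z q) / z q, ?_, ?_, ?_⟩
  · intro D _ hl j
    exact hl (z j)
  · intro D l
    rw [Finset.sum_eq_single l]
    · rw [Matrix.diagonal_apply_eq]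
      field_simp [hz l]
    · intro b _ hb
      rw [Matrix.diagonal_apply_ne _ (Ne.symm hb), zero_mul]
    · intro h
      exact absurd (Finset.mem_univ l) h
  · rw [Matrix.det_diagonal]
    by_cases h0 : a = 0
    · left; rw [h0, zero_mul]
    right
    have hp : ∏ q, z q ≠ 0 := Finset.prod_ne_zero_iff.2 fun q _ => hz q
    have h1 : ∀ s : Finset (Fin d), w.ord (∏ q ∈ s, z q) = ∑ q ∈ s, w.ord (z q) := by
      intro s
      induction s using Finset.induction_on with
      | empty => simp [w.ord_one]
      | insert b s hb ih =>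
        rw [Finset.prod_insert hb, Finset.sum_insert hb,
          w.ord_mul (hz b) (Finset.prod_ne_zero_iff.2 fun q _ => hz q), ih]
    rw [w.ord_mul h0 (pow_ne_zero _ hp), w.ord_pow, h1]
    have h2 : (0 : ℤ) ≤ w.ord a := ha.resolve_left h0
    push_cast
    have h3 : (0 : ℝ) ≤ w.ord a := by exact_mod_cast h2
    linarith

/-- An element which belongs to two factors is not transcendental. -/
theorem not_mem_two {r : ℕ} {a : Fin r → ℕ} (M : Fin r → IntermediateField k L)
    (halg : Algebra.IsAlgebraic ↥(⨆ i, M i) L) (hn : Algebra.trdeg k L = (∑ i, a i : ℕ))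
    (hM : ∀ i, Algebra.trdeg k (M i) = a i) {i j : Fin r} (hij : i ≠ j) (x : M i) (y : M j)
    (hx : Transcendental k x) (hy : Transcendental k y) (hxy : (x : L) = y) : False := by
  classical
  let A : Fin r → ℕ := fun l => if l = i ∨ l = j then 1 else 0
  have hex : ∀ l, ∃ s : Fin (A l) → M l, AlgebraicIndependent k s ∧
      (∀ (h : l = i) p, (s p : L) = x) ∧ (∀ (h : l = j) p, (s p : L) = y) := by
    intro l
    by_cases h1 : l = i
    · subst h1
      refine ⟨fun _ => x, ?_, fun _ _ => rfl, fun h => absurd h hij⟩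
      have hA : A l = 1 := by simp [A]
      have : Unique (Fin (A l)) := by rw [hA]; infer_instance
      exact algebraicIndependent_unique_type_iff.2 hx
    · by_cases h2 : l = j
      · subst h2
        refine ⟨fun _ => y, ?_, fun h => absurd h h1, fun _ _ => rfl⟩
        have hA : A l = 1 := by simp [A]
        have : Unique (Fin (A l)) := by rw [hA]; infer_instance
        exact algebraicIndependent_unique_type_iff.2 hy
      · have hA : A l = 0 := by simp [A, h1, h2]
        have : IsEmpty (Fin (A l)) := by rw [hA]; infer_instance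
        refine ⟨fun p => isEmptyElim p, ?_, fun h => absurd h h1, fun h => absurd h h2⟩
        rw [algebraicIndependent_empty_type_iff]
        exact (algebraMap k (M l)).injective
  choose s hs1 hs2 hs3 using hex
  have h1 := indep_sigma (A := A) M halg hn hM s hs1
  have hi : 0 < A i := by simp [A]
  have hj : 0 < A j := by simp [A]
  have hinj : Function.Injective (fun p : Σ l, Fin (A l) => (s p.1 p.2 : L)) := h1.injective
  have h2 : (⟨i, ⟨0, hi⟩⟩ : Σ l, Fin (A l)) = ⟨j, ⟨0, hj⟩⟩ := hinj (by
    change (s i _ : L) = (s j _ : L)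
    rw [hs2 i rfl, hs3 j rfl, hxy])
  exact hij (congrArg Sigma.fst h2)

end

end Pool.Agent.K1H6.PQ
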