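import Pool.Agent.K1H6.PQ.Good
import Pool.Agent.K1H6.PQ.Cyc

/-! The order of a product form at a ramified place, for a group which permutes the factors. -/

set_option autoImplicit false
set_option linter.overlappingInstances false
set_option linter.unusedSectionVars false
set_option linter.unusedVariables false

open FF IntermediateField Pool.Agent.W619.PQ Pool.Agent.W619.PL Pool.Agent.W619.TW
  Pool.Agent.W603.LV Pool.Agent.W619.Y Pool.Agent.W672.PG Pool.Agent.W824.PG Pool.Agent.Y174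
  Pool.Agent.K1H17.IS

namespace Pool.Agent.K1H6.PQ

section

variable {k : Type} {L : Type} [Field k] [Field L] [Algebra k L]

/-- The sum over the cycles `c` of the permutation `π` (of length `l`, on factors of dimension `a`) of
`a (l - 1) / 2`. (In the sum below every cycle of length `l` is counted `l` times.) -/
noncomputable def permAge {r : ℕ} (a : Fin r → ℕ) (π : Equiv.Perm (Fin r)) : ℝ :=
  ∑ i, (1 / (Function.minimalPeriod π i : ℝ)) * (a i * ((Function.minimalPeriod π i : ℝ) - 1) / 2)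

end

section

variable {k : Type} {L : Type} [Field k] [CharZero k] [IsAlgClosed k] [Field L] [Algebra k L]

theorem ram {r : ℕ} {a : Fin r → ℕ} (M : Fin r → IntermediateField k L)
    (halg : Algebra.IsAlgebraic ↥(⨆ i, M i) L) (hn : Algebra.trdeg k L = (∑ i, a i : ℕ))
    (hM : ∀ i, Algebra.trdeg k (M i) = a i) (hessM : ∀ i, Algebra.EssFiniteType k (M i))
    {G : Subgroup (L ≃ₐ[k] L)} [Finite G] (σ : G →* Equiv.Perm (Fin r))
    (hσ : ∀ (g : G) i, ∀ z ∈ M i, (g : L ≃ₐ[k] L) z ∈ M (σ g i)) {w : Place k L}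
    (hw : IsDivisorial w (∑ i, a i)) (h : G) (hI : Inert w (h : L ≃ₐ[k] L)) {μ : ℕ}
    (y : ∀ i, Fin (a i) → M i) (hy : ∀ i, IsTranscendenceBasis k (y i))
    (E : ∀ i, Fin (a i) → Derivation k (M i) (M i))
    (hE : ∀ i p q, E i p (y i q) = if p = q then 1 else 0)
    (F : ∀ i, (Fin (a i) → Derivation k (M i) (M i)) → M i)
    (hF : ∀ i, IsPluriForm k (M i) (a i) μ (F i)) (γ : Fin r → ℝ)
    (hl : ∀ i, WLog w (M i) (a i) (F i) (γ i))
    (D : (Σ i, Fin (a i)) → Derivation k L L) (hD : ∀ j, Pres w (D j))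
    (hlD : ∀ j z, w.Reg (D j z / z)) :
    GeR w (∑ i, γ i + μ * (orderOf (h : L ≃ₐ[k] L) * permAge a (σ h)))
      ((Matrix.of fun i j : (Σ i, Fin (a i)) => D i (y j.1 j.2 : L)).det ^ μ *
        ∏ i, ((F i (E i) : M i) : L)) := by
  classical
  set g : L ≃ₐ[k] L := (h : L ≃ₐ[k] L) with hg
  set π : Equiv.Perm (Fin r) := σ h with hπ
  have hfin : IsOfFinOrder g := by
    have h3 : IsOfFinOrder h := isOfFinOrder_of_finite _
    exact (Submonoid.isOfFinOrder_coe (H := G.toSubmonoid) (x := h)).2 h3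
  set e := orderOf g with he
  have he0 : 0 < e := hfin.orderOf_pos
  have hge : h ^ e = 1 := by
    apply Subtype.ext
    have : ((h ^ e : G) : L ≃ₐ[k] L) = g ^ e := rfl
    rw [this, he, pow_orderOf_eq_one]
    rfl
  have hπe : π ^ e = 1 := by rw [hπ, ← map_pow, hge, map_one]
  let l : Fin r → ℕ := fun i => Function.minimalPeriod π i
  have hl0 : ∀ i, 0 < l i := fun i => mp_pos π i
  have hmap : ∀ n i, ∀ z ∈ M i, (g ^ n) z ∈ M ((π ^ n) i) := by
    intro n i z hz
    have := hσ (h ^ n) i z hz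
    rwa [map_pow] at this
  have hmap' : ∀ n i, ∀ z ∈ M ((π ^ n) i), (g ^ n).symm z ∈ M i := by
    intro n i z hz
    rw [mem_F_iff hσ (h ^ n) i, map_pow]
    change (g ^ n) ((g ^ n).symm z) ∈ _
    rw [AlgEquiv.apply_symm_apply]
    exact hz
  obtain ⟨ρ, s, hs1, hs2, hρ, hρl, hs5, hρρ⟩ := exists_reps π
  have ha : ∀ i n, a ((π ^ n) i) = a i := by
    intro i n
    have h1 := (resEquiv (g ^ n) (hmap n i) (hmap' n i)).trdeg_eq
    rw [hM, hM] at h1
    exact_mod_cast h1.symm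
  have ha' : ∀ i, a (ρ i) = a i := by
    intro i
    have := ha (ρ i) (s i)
    rw [hs2] at this
    exact this.symm
  have hlr : ∀ i, l (ρ i) = l i := hρl
  -- good coordinates
  have hst1 : ∀ j, ∀ z ∈ M j, (g ^ l j) z ∈ M j := by
    intro j z hz
    have := hmap (l j) j z hz
    rwa [show (π ^ l j) j = j from pow_mp π j] at this
  have hst2 : ∀ j, ∀ z ∈ M j, (g ^ l j).symm z ∈ M j := by
    intro j z hz
    refine hmap' (l j) j z ?_
    rwa [show (π ^ l j) j = j from pow_mp π j]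
  have hgood := fun j => good_exists hw hn (M j) (hM j) (hessM j) (inert_pow hI (l j)) hfin.pow
    (hst1 j) (hst2 j)
  choose X0 hX0 hinv hreg using hgood
  let d : Fin r → ℕ := fun j => e / l j
  have hd : ∀ j, e = d j * l j := fun j => (Nat.div_mul_cancel (mp_dvd π j hπe)).symm
  have hordl : ∀ j, orderOf (g ^ l j) = d j := fun j =>
    orderOf_pow_of_dvd (hl0 j).ne' (mp_dvd π j hπe)
  let x0 : Fin r → ℕ → L := fun j n => if hn : n < a j then (X0 j ⟨n, hn⟩ : L) else 0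
  have hx0 : ∀ j (q : Fin (a j)), x0 j q = X0 j q := by
    intro j q
    simp only [x0, dif_pos q.2]
  have hx00 : ∀ j n, n < a j → x0 j n ≠ 0 := by
    intro j n hn' h0
    have h1 := hx0 j ⟨n, hn'⟩
    change x0 j n = _ at h1
    rw [h1] at h0
    have h2 : X0 j ⟨n, hn'⟩ = 0 := Subtype.ext h0
    exact (hX0 j).1.1.ne_zero _ h2
  have hx0inv : ∀ j n, (g ^ l j) (x0 j n) = x0 j n := by
    intro j n
    by_cases hn' : n < a j
    · have h1 := hx0 j ⟨n, hn'⟩
      change x0 j n = _ at h1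
      rw [h1]
      exact hinv j _
    · simp only [x0, dif_neg hn', map_zero]
  have hof : ∀ j n, ∃ o : ℕ, n < a j → w.ord (x0 j n) = d j * o := by
    intro j n
    by_cases hn' : n < a j
    · have h1 := dvd_ord (inert_pow hI (l j)) hfin.pow (hx00 j n hn') (hx0inv j n)
      rw [hordl] at h1
      obtain ⟨c, hc⟩ := h1
      have h2 : 0 ≤ w.ord (x0 j n) := by
        have h3 := hx0 j ⟨n, hn'⟩
        change x0 j n = _ at h3
        have h4 := (hreg j ⟨n, hn'⟩).resolve_left (by rw [← h3]; exact hx00 j n hn')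
        rw [h3]
        exact h4
      have hd0 : 0 < d j := by
        rcases Nat.eq_zero_or_pos (d j) with h0 | h0
        · have := hd j
          rw [h0, zero_mul] at this
          omega
        · exact h0
      have hdz : (0 : ℤ) < d j := by exact_mod_cast hd0
      have hc0 : 0 ≤ c := by
        by_contra hcon
        push Not at hcon
        have := mul_neg_of_pos_of_neg hdz hcon
        omega
      refine ⟨c.toNat, fun _ => ?_⟩
      rw [hc, Int.toNat_of_nonneg hc0]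
    · exact ⟨0, fun h => absurd h hn'⟩
  choose o ho using hof
  have hne1 : NeZero e := ⟨he0.ne'⟩
  have hne2 : NeZero (e : k) := ⟨by exact_mod_cast he0.ne'⟩
  obtain ⟨ξ, hξ⟩ := HasEnoughRootsOfUnity.exists_primitiveRoot k e
  obtain ⟨η, hη, hη'⟩ := exists_eigen hI hfin (ξ := ξ) hξ
  have hη0 : η ≠ 0 := hη.ne_zero he0.ne'
  have hζ : ∀ j, IsPrimitiveRoot (η ^ d j) (l j) := fun j => hη.pow he0 (hd j)
  let R : (Σ i, Fin (a i)) → L := fun b =>
    rsv (η ^ d (ρ b.1)) g (l (ρ b.1)) (s b.1 + o (ρ b.1) b.2) (x0 (ρ b.1) b.2)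
  -- the coordinates on all the factors
  have hφ1 : ∀ i, ∀ z ∈ M (ρ i), (g ^ s i) z ∈ M i := by
    intro i z hz
    have := hmap (s i) (ρ i) z hz
    rwa [hs2] at this
  have hφ2 : ∀ i, ∀ z ∈ M i, (g ^ s i).symm z ∈ M (ρ i) := by
    intro i z hz
    refine hmap' (s i) (ρ i) z ?_
    rwa [hs2]
  let X : ∀ i, Fin (a i) → M i := fun i q =>
    resEquiv (g ^ s i) (hφ1 i) (hφ2 i) (X0 (ρ i) (Fin.cast (ha' i).symm q))
  have hXgood : ∀ i, GoodX w (M i) (a i) (X i) := fun i =>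
    good_push _ (fun z => (inert_pow hI (s i)).ord_eq (z : L)) (good_cast (hX0 (ρ i)) (ha' i).symm)
  have hXcoe : ∀ i q, (X i q : L) = (g ^ s i) (x0 (ρ i) q) := by
    intro i q
    have h1 := hx0 (ρ i) (Fin.cast (ha' i).symm q)
    change x0 (ρ i) q = _ at h1
    rw [h1]
    rfl
  have hXpow : ∀ (b : Σ i, Fin (a i)) (t : ℕ) (ht : t < l (ρ b.1))
      (hlt : (b.2 : ℕ) < a ((π ^ t) (ρ b.1))),
      (X ((π ^ t) (ρ b.1)) ⟨b.2, hlt⟩ : L) = (g ^ t) (x0 (ρ b.1) b.2) := by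
    intro b t ht hlt
    have h1 := hXcoe ((π ^ t) (ρ b.1)) ⟨b.2, hlt⟩
    rw [hs5 b.1 t (by rw [← hρl]; exact ht), hρ, hρρ] at h1
    exact h1
  have hlt : ∀ (b : Σ i, Fin (a i)) (t : ℕ), (b.2 : ℕ) < a ((π ^ t) (ρ b.1)) := by
    intro b t
    rw [ha, ha']
    exact b.2.2
  have hindep : LinearIndependent k (fun p : Σ i, Fin (a i) => (X p.1 p.2 : L)) :=
    (basis_sigma (ι := fun i => Fin (a i)) M halg hn (fun i => Fintype.card_fin _) X
      (fun i => (hXgood i).1)).1.linearIndependent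
  have hR : ∀ b, R b ≠ 0 := by
    intro b h0
    let f : Fin (l (ρ b.1)) → Σ i, Fin (a i) := fun t => ⟨(π ^ (t : ℕ)) (ρ b.1), ⟨b.2, hlt b t⟩⟩
    have hf : Function.Injective f := by
      intro t t' htt
      have h1 : (π ^ (t : ℕ)) (ρ b.1) = (π ^ (t' : ℕ)) (ρ b.1) := congrArg Sigma.fst htt
      exact Fin.ext (mp_inj π (ρ b.1) t.2 t'.2 h1)
    have h1 := hindep.comp f hf
    rw [Fintype.linearIndependent_iff] at h1
    have h2 := h1 (fun t => (η ^ d (ρ b.1))⁻¹ ^ ((s b.1 + o (ρ b.1) b.2) * (t : ℕ))) (by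
      rw [← h0]
      change _ = rsv _ _ _ _ _
      unfold rsv
      rw [Finset.sum_range]
      refine Finset.sum_congr rfl fun t _ => ?_
      rw [Algebra.smul_def]
      congr 1
      exact hXpow b t t.2 (hlt b t)) ⟨0, hl0 _⟩
    simp at h2
  let B : (Σ i, Fin (a i)) → (Σ i, Fin (a i)) → k := fun b j =>
    if ρ j.1 = ρ b.1 ∧ (j.2 : ℕ) = b.2 then
      (η ^ d (ρ b.1)) ^ ((s j.1 + o (ρ b.1) b.2) * s b.1) / (l (ρ b.1) : k) else 0
  have hCL : CharZero L := charZero_of_injective_algebraMap (algebraMap k L).injective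
  have hB : ∀ b : (Σ i, Fin (a i)), (X b.1 b.2 : L) = ∑ j, algebraMap k L (B b j) * R j := by
    intro b
    have hlL : (l (ρ b.1) : L) ≠ 0 := by exact_mod_cast (hl0 _).ne'
    have h1 := rsv_inv (hl0 (ρ b.1)) (hζ (ρ b.1)) g (x0 (ρ b.1) b.2) (o (ρ b.1) b.2) (s' := s b.1)
      (by rw [hlr]; exact hs1 b.1)
    rw [← hXcoe] at h1
    have h2 : (X b.1 b.2 : L) = (l (ρ b.1) : L)⁻¹ * ∑ m ∈ Finset.range (l (ρ b.1)),
        algebraMap k L ((η ^ d (ρ b.1)) ^ ((m + o (ρ b.1) b.2) * s b.1)) *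
          rsv (η ^ d (ρ b.1)) g (l (ρ b.1)) (m + o (ρ b.1) b.2) (x0 (ρ b.1) b.2) := by
      rw [h1, inv_mul_cancel_left₀ hlL]
    rw [h2, Finset.mul_sum]
    have h3 : ∀ j : (Σ i, Fin (a i)), algebraMap k L (B b j) * R j =
        if ρ j.1 = ρ b.1 ∧ (j.2 : ℕ) = b.2 then (l (ρ b.1) : L)⁻¹ *
          (algebraMap k L ((η ^ d (ρ b.1)) ^ ((s j.1 + o (ρ b.1) b.2) * s b.1)) *
          rsv (η ^ d (ρ b.1)) g (l (ρ b.1)) (s j.1 + o (ρ b.1) b.2) (x0 (ρ b.1) b.2)) else 0 := by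
      intro j
      by_cases hj : ρ j.1 = ρ b.1 ∧ (j.2 : ℕ) = b.2
      · simp only [B, R, if_pos hj]
        rw [hj.1, hj.2, map_div₀, map_natCast]
        ring
      · simp only [B, if_neg hj]
        rw [map_zero, zero_mul]
    simp only [h3]
    rw [← Finset.sum_filter]
    symm
    refine Finset.sum_bij' (fun j _ => s j.1) (fun m _ => ⟨(π ^ m) (ρ b.1), ⟨b.2, hlt b m⟩⟩)
      ?_ ?_ ?_ ?_ ?_
    · intro j hj
      rw [Finset.mem_filter] at hj
      rw [Finset.mem_range]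
      have h4 := hs1 j.1
      rw [← hρl, hj.2.1] at h4
      exact h4
    · intro m hm
      rw [Finset.mem_filter]
      refine ⟨Finset.mem_univ _, ?_, rfl⟩
      rw [hρ, hρρ]
    · intro j hj
      rw [Finset.mem_filter] at hj
      obtain ⟨j1, j2⟩ := j
      have h4 : (π ^ s j1) (ρ b.1) = j1 := by
        have := hj.2.1
        change ρ j1 = ρ b.1 at this
        rw [← this, hs2]
      have h5 : (j2 : ℕ) = b.2 := hj.2.2
      refine Sigma.ext h4 ?_
      change HEq (⟨b.2, _⟩ : Fin (a ((π ^ s j1) (ρ b.1)))) j2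
      rw [Fin.heq_ext_iff (by rw [h4])]
      exact h5.symm
    · intro m hm
      rw [Finset.mem_range] at hm
      exact hs5 b.1 m (by rw [← hρl]; exact hm)
    · intro j hj
      rfl
  have hdual := fun i => Pool.Agent.W636.PG.exists_duals k (M i) (a i) (X i) (hXgood i).1
  choose E' hE' using hdual
  have hmain := est_gen (μ := μ) M y (fun i => F i (E i)) X (fun i => (hXgood i).1) E' hE' R hR B hB
    (fun i => γ i - μ * ∑ q, (w.ord (X i q : L) : ℝ)) (fun i => by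
      rw [← Pool.Agent.W636.PG.form_eq k (M i) (a i) μ (y i) (hy i) (E i) (hE i) (F i) (hF i)
        (E' i)]
      exact (hXgood i).2 (E' i) (hE' i) μ (F i) (hF i) (γ i) (hl i)) D hD hlD
  refine hmain.mono ?_
  -- the numbers
  have hordX : ∀ i q, w.ord (X i q : L) = w.ord (x0 (ρ i) q) := by
    intro i q
    rw [hXcoe]
    exact (inert_pow hI (s i)).ord_eq _
  have hordR : ∀ b : (Σ i, Fin (a i)), (w.ord (x0 (ρ b.1) b.2) : ℝ) + d (ρ b.1) * s b.1 ≤
      (w.ord (R b) : ℝ) := by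
    intro b
    have hb : (b.2 : ℕ) < a (ρ b.1) := by rw [ha']; exact b.2.2
    have h1 := ord_rsv hI hfin hη hη' (l := l (ρ b.1)) (d := d (ρ b.1)) (hd _)
      (hx00 (ρ b.1) b.2 hb) (hx0inv (ρ b.1) b.2) (ho (ρ b.1) b.2 hb) (m := s b.1)
      (by rw [hlr]; exact hs1 b.1) (hR b)
    exact_mod_cast h1
  have hsumR : ∑ i, (∑ q, (w.ord (X i q : L) : ℝ) + a i * (d (ρ i) * s i)) ≤
      ∑ b, (w.ord (R b) : ℝ) := by
    rw [Fintype.sum_sigma]
    refine Finset.sum_le_sum fun i _ => ?_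
    have h1 : (a i : ℝ) * (d (ρ i) * s i) = ∑ q : Fin (a i), ((d (ρ i) : ℝ) * s i) := by
      rw [Finset.sum_const, Finset.card_univ, Fintype.card_fin, nsmul_eq_mul]
    rw [h1, ← Finset.sum_add_distrib]
    refine Finset.sum_le_sum fun q _ => ?_
    rw [hordX]
    exact hordR ⟨i, q⟩
  have hlreal : ∀ i, (0 : ℝ) < l i := fun i => by exact_mod_cast hl0 i
  have hdreal : ∀ i, (d i : ℝ) = e / l i := by
    intro i
    rw [eq_div_iff (hlreal i).ne']
    exact_mod_cast (hd i).symm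
  have hcyc : ∑ i, (a i : ℝ) * (d (ρ i) * s i) =
      ∑ i, (e : ℝ) * ((1 / (l i : ℝ)) * (a i * ((l i : ℝ) - 1) / 2)) := by
    have h1 := cyc_sum π hs1 hs2 hρ hs5 hρρ (fun i => (a i : ℝ) * (e / l i)) (fun i n => by
      change (a ((π ^ n) i) : ℝ) * (e / (Function.minimalPeriod π ((π ^ n) i) : ℕ)) =
        (a i : ℝ) * (e / (Function.minimalPeriod π i : ℕ))
      rw [ha, mp_pow])
    have h2 : ∀ i, (a i : ℝ) * (d (ρ i) * s i) = (a i : ℝ) * (e / l i) * s i := by
      intro i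
      rw [hdreal, hlr]
      ring
    simp only [h2]
    rw [h1]
    refine Finset.sum_congr rfl fun i _ => ?_
    ring
  have hμ0 : (0 : ℝ) ≤ μ := Nat.cast_nonneg μ
  have hage : (e : ℝ) * permAge a π =
      ∑ i, (e : ℝ) * ((1 / (l i : ℝ)) * (a i * ((l i : ℝ) - 1) / 2)) := by
    unfold permAge
    rw [Finset.mul_sum]
  rw [hage]
  rw [Finset.sum_add_distrib, hcyc] at hsumR
  have hS1 : ∑ i, (γ i - μ * ∑ q, (w.ord (X i q : L) : ℝ)) =
      ∑ i, γ i - μ * ∑ i, ∑ q, (w.ord (X i q : L) : ℝ) := by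
    rw [Finset.sum_sub_distrib, Finset.mul_sum]
  rw [hS1]
  have h1 := mul_le_mul_of_nonneg_left hsumR hμ0
  linarith

end

end Pool.Agent.K1H6.PQ
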