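import Pool.Agent.K1H6.PQ.Loc

/-! Lagrange resolvents and their orders. -/

set_option autoImplicit false
set_option linter.overlappingInstances false
set_option linter.unusedSectionVars false
set_option linter.unusedVariables false

open FF IntermediateField Pool.Agent.W619.PQ Pool.Agent.W619.PL Pool.Agent.W619.TW
  Pool.Agent.W603.LV Pool.Agent.W619.Y Pool.Agent.W672.PG Pool.Agent.W824.PG Pool.Agent.Y174
  Pool.Agent.K1H17.IS

namespace Pool.Agent.K1H6.PQ

section

variable {k : Type} {L : Type} [Field k] [CharZero k] [Field L] [Algebra k L]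

/-- The Lagrange resolvent. -/
noncomputable def rsv (ζ : k) (h : L ≃ₐ[k] L) (l n : ℕ) (y : L) : L :=
  ∑ s ∈ Finset.range l, algebraMap k L (ζ⁻¹ ^ (n * s)) * (h ^ s) y

theorem rsv_eigen {ζ : k} (hζ0 : ζ ≠ 0) {h : L ≃ₐ[k] L} {l : ℕ} (hζ : ζ ^ l = 1) (n : ℕ) {y : L}
    (hy : (h ^ l) y = y) : h (rsv ζ h l n y) = algebraMap k L (ζ ^ n) * rsv ζ h l n y := by
  unfold rsv
  rw [map_sum, Finset.mul_sum]
  let f : ℕ → L := fun s => algebraMap k L (ζ ^ n) * (algebraMap k L (ζ⁻¹ ^ (n * s)) * (h ^ s) y)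
  have e1 : ∀ s, h (algebraMap k L (ζ⁻¹ ^ (n * s)) * (h ^ s) y) = f (s + 1) := by
    intro s
    have e2 : ζ ^ n * ζ⁻¹ ^ (n * (s + 1)) = ζ⁻¹ ^ (n * s) := by
      rw [mul_add, mul_one, pow_add, inv_pow ζ n]
      have : ζ ^ n ≠ 0 := pow_ne_zero _ hζ0
      field_simp
    simp only [f]
    rw [map_mul, AlgEquiv.commutes, ← mul_assoc, ← map_mul, e2, pow_succ' h s]
    rfl
  simp only [e1]
  have e3 := Finset.sum_range_succ f l
  have e4 := Finset.sum_range_succ' f l
  have e5 : f l = f 0 := by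
    simp only [f]
    rw [hy, mul_zero, pow_zero, pow_zero]
    have : ζ⁻¹ ^ (n * l) = 1 := by
      rw [mul_comm, pow_mul, inv_pow, hζ, inv_one, one_pow]
    rw [this]
    rfl
  rw [e5, e4] at e3
  exact add_right_cancel e3

theorem geo_zero {θ : k} {l : ℕ} (h1 : θ ^ l = 1) (h2 : θ ≠ 1) (o : ℕ) :
    ∑ m ∈ Finset.range l, θ ^ (m + o) = 0 := by
  have : ∑ m ∈ Finset.range l, θ ^ (m + o) = θ ^ o * ∑ m ∈ Finset.range l, θ ^ m := by
    rw [Finset.mul_sum]
    refine Finset.sum_congr rfl fun m _ => ?_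
    rw [pow_add, mul_comm]
  rw [this, geom_sum_eq h2, h1, sub_self, zero_div, mul_zero]

theorem rsv_inv {ζ : k} {l : ℕ} (hl : 0 < l) (hζ : IsPrimitiveRoot ζ l) (h : L ≃ₐ[k] L) (y : L)
    (o : ℕ) {s' : ℕ} (hs' : s' < l) :
    ∑ m ∈ Finset.range l, algebraMap k L (ζ ^ ((m + o) * s')) * rsv ζ h l (m + o) y =
      (l : L) * (h ^ s') y := by
  have hζ0 : ζ ≠ 0 := hζ.ne_zero hl.ne'
  unfold rsv
  simp only [Finset.mul_sum]
  rw [Finset.sum_comm]
  have e1 : ∀ s ∈ Finset.range l, ∑ m ∈ Finset.range l, algebraMap k L (ζ ^ ((m + o) * s')) *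
      (algebraMap k L (ζ⁻¹ ^ ((m + o) * s)) * (h ^ s) y) =
      if s = s' then (l : L) * (h ^ s') y else 0 := by
    intro s hs
    have hs1 : s < l := Finset.mem_range.1 hs
    have e2 : ∀ m, algebraMap k L (ζ ^ ((m + o) * s')) *
      (algebraMap k L (ζ⁻¹ ^ ((m + o) * s)) * (h ^ s) y) =
      algebraMap k L ((ζ ^ s' * ζ⁻¹ ^ s) ^ (m + o)) * (h ^ s) y := by
      intro m
      rw [← mul_assoc, ← map_mul]
      congr 2
      rw [mul_pow, ← pow_mul, ← pow_mul, mul_comm s', mul_comm s]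
    simp only [e2]
    rw [← Finset.sum_mul, ← map_sum]
    split_ifs with hss
    · subst hss
      have : ζ ^ s * ζ⁻¹ ^ s = 1 := by
        rw [← mul_pow, mul_inv_cancel₀ hζ0, one_pow]
      simp only [this, one_pow, Finset.sum_const, Finset.card_range, nsmul_eq_mul, mul_one,
        map_natCast]
    · rw [geo_zero, map_zero, zero_mul]
      · rw [mul_pow, ← pow_mul, ← pow_mul, mul_comm s', mul_comm s, pow_mul, pow_mul, inv_pow,
          hζ.pow_eq_one, inv_one, one_pow, one_pow, mul_one]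
      · intro h1
        apply hss
        have h2 : ζ ^ s' = ζ ^ s := by
          have h3 : ζ ^ s' * ζ⁻¹ ^ s * ζ ^ s = ζ ^ s := by rw [h1, one_mul]
          rw [mul_assoc, ← mul_pow, inv_mul_cancel₀ hζ0, one_pow, mul_one] at h3
          exact h3
        exact (hζ.pow_inj hs' hs1 h2).symm
  rw [Finset.sum_congr rfl e1, Finset.sum_ite_eq', if_pos (Finset.mem_range.2 hs')]

/-- The eigenvalues and the orders of the eigenfunctions of an inert automorphism. -/
theorem exists_eigen {w : Place k L} {h : L ≃ₐ[k] L} (hI : Inert w h) (hfin : IsOfFinOrder h)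
    {ξ : k} (hξ : IsPrimitiveRoot ξ (orderOf h)) :
    ∃ η : k, IsPrimitiveRoot η (orderOf h) ∧
      ∀ z : L, z ≠ 0 → ∀ c : k, h z = algebraMap k L c * z → c = η ^ (w.ord z) := by
  classical
  set e := orderOf h with he
  have he0 : 0 < e := hfin.orderOf_pos
  obtain ⟨π, hπ0, hπ⟩ := w.surj
  have hξ0 : ξ ≠ 0 := hξ.ne_zero he0.ne'
  have hCL : CharZero L := charZero_of_injective_algebraMap (algebraMap k L).injective
  have hreg : ∀ n, Ge w 1 (rsv ξ h e n π) := by
    intro n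
    unfold rsv
    refine Ge.sum _ _ fun s _ => ?_
    have h1 : Ge w 1 ((h ^ s) π) := (inert_pow hI s).ge (Or.inr hπ.ge)
    simpa using (Ge.const (P := w) (ξ⁻¹ ^ (n * s))).mul h1
  have hex : ∃ m, rsv ξ h e m π ≠ 0 ∧ w.ord (rsv ξ h e m π) = 1 := by
    by_contra hcon
    push Not at hcon
    have h2 : ∀ n, Ge w 2 (rsv ξ h e n π) := by
      intro n
      by_cases h0 : rsv ξ h e n π = 0
      · exact Or.inl h0
      · right
        have h3 := (hreg n).resolve_left h0
        have h4 := hcon n h0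
        omega
    have h3 := rsv_inv he0 hξ h π 0 he0
    have h4 : Ge w 2 ((e : L) * (h ^ 0) π) := by
      rw [← h3]
      refine Ge.sum _ _ fun m _ => ?_
      simpa using (Ge.const (P := w) (ξ ^ ((m + 0) * 0))).mul (h2 (m + 0))
    rw [pow_zero] at h4
    have heL : (e : L) ≠ 0 := by exact_mod_cast he0.ne'
    have h5 : w.ord (e : L) = 0 := by
      have h6 : algebraMap k L (e : k) = (e : L) := by simp
      rw [← h6]
      apply w.ord_const
      exact_mod_cast he0.ne'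
    change Ge w 2 ((e : L) * π) at h4
    have h6 := h4.resolve_left (mul_ne_zero heL hπ0)
    rw [w.ord_mul heL hπ0, h5, hπ] at h6
    omega
  obtain ⟨m, hm0, hm1⟩ := hex
  set z0 := rsv ξ h e m π with hz0
  have hz0e : h z0 = algebraMap k L (ξ ^ m) * z0 :=
    rsv_eigen hξ0 hξ.pow_eq_one m (by rw [he, pow_orderOf_eq_one]; rfl)
  have hξm : ξ ^ m ≠ 0 := pow_ne_zero _ hξ0
  have hchar : ∀ z : L, z ≠ 0 → ∀ c : k, h z = algebraMap k L c * z → c = (ξ ^ m) ^ (w.ord z) := by
    intro z hz c hc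
    have hc0 : c ≠ 0 := by
      rintro rfl
      rw [map_zero, zero_mul] at hc
      exact hz ((map_eq_zero_iff _ h.injective).1 hc)
    set n := w.ord z with hn
    have hz0n : z0 ^ n ≠ 0 := zpow_ne_zero _ hm0
    set z' := z / z0 ^ n with hz'
    have hz'0 : z' ≠ 0 := div_ne_zero hz hz0n
    have hord : w.ord z' = 0 := by
      rw [hz', w.ord_div hz hz0n, w.ord_zpow, hm1]
      omega
    have h1 : h z' = algebraMap k L (c / (ξ ^ m) ^ n) * z' := by
      rw [hz', map_div₀, map_zpow₀, hc, hz0e, mul_zpow, map_div₀, map_zpow₀]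
      have : algebraMap k L (ξ ^ m) ^ n ≠ 0 := zpow_ne_zero _ (by simpa using hξm)
      field_simp
    have h2 := hI z' (Or.inr hord.ge)
    rw [h1] at h2
    by_contra hne
    have h3 : c / (ξ ^ m) ^ n - 1 ≠ 0 := by
      intro h4
      rw [sub_eq_zero, div_eq_one_iff_eq (zpow_ne_zero _ hξm)] at h4
      exact hne h4
    have h4 : algebraMap k L (c / (ξ ^ m) ^ n) * z' - z' =
        algebraMap k L (c / (ξ ^ m) ^ n - 1) * z' := by
      rw [map_sub, map_one]; ring
    rw [h4] at h2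
    have h5 : algebraMap k L (c / (ξ ^ m) ^ n - 1) ≠ 0 :=
      (map_ne_zero_iff _ (algebraMap k L).injective).2 h3
    have h6 := h2.resolve_left (mul_ne_zero h5 hz'0)
    rw [w.ord_mul h5 hz'0, w.ord_const h3, hord] at h6
    omega
  refine ⟨ξ ^ m, ?_, hchar⟩
  refine IsPrimitiveRoot.iff_def _ _ |>.2 ⟨?_, fun n hn => ?_⟩
  · rw [← pow_mul, mul_comm, pow_mul, hξ.pow_eq_one, one_pow]
  · have h1 : h (z0 ^ n) = z0 ^ n := by
      rw [map_pow, hz0e, mul_pow, ← map_pow, hn, map_one, one_mul]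
    have h2 := dvd_ord hI hfin (pow_ne_zero n hm0) h1
    rw [w.ord_pow, hm1, mul_one] at h2
    exact_mod_cast h2

/-- The orders of the resolvents. -/
theorem ord_rsv {w : Place k L} {h : L ≃ₐ[k] L} (hI : Inert w h) (hfin : IsOfFinOrder h) {η : k}
    (hη : IsPrimitiveRoot η (orderOf h))
    (hη' : ∀ z : L, z ≠ 0 → ∀ c : k, h z = algebraMap k L c * z → c = η ^ (w.ord z))
    {l d : ℕ} (hl : orderOf h = d * l) {y : L} (hy0 : y ≠ 0) (hy : (h ^ l) y = y)
    {o : ℕ} (ho : w.ord y = d * o) {m : ℕ} (hm : m < l) (hR : rsv (η ^ d) h l (m + o) y ≠ 0) :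
    w.ord y + d * m ≤ w.ord (rsv (η ^ d) h l (m + o) y) := by
  have he0 : 0 < orderOf h := hfin.orderOf_pos
  have hd0 : 0 < d := Nat.pos_of_mul_pos_right (hl ▸ he0) |> fun _ => by
    rcases Nat.eq_zero_or_pos d with h0 | h0
    · rw [h0, zero_mul] at hl; omega
    · exact h0
  have hη0 : η ≠ 0 := hη.ne_zero he0.ne'
  have hζ : (η ^ d) ^ l = 1 := by rw [← pow_mul, ← hl, hη.pow_eq_one]
  set R := rsv (η ^ d) h l (m + o) y with hRd
  have h1 : Ge w (w.ord y) R := by
    rw [hRd]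
    unfold rsv
    refine Ge.sum _ _ fun s _ => ?_
    have h2 : Ge w (w.ord y) ((h ^ s) y) := (inert_pow hI s).ge (Or.inr le_rfl)
    simpa using (Ge.const (P := w) ((η ^ d)⁻¹ ^ ((m + o) * s))).mul h2
  have h2 : w.ord y ≤ w.ord R := h1.resolve_left hR
  have h3 := hη' R hR _ (rsv_eigen (pow_ne_zero _ hη0) hζ (m + o) hy)
  rw [← pow_mul, ← zpow_natCast] at h3
  have h4 : η ^ (w.ord R - (d * (m + o) : ℕ) : ℤ) = 1 := by
    rw [zpow_sub₀ hη0, ← h3, div_self (zpow_ne_zero _ hη0)]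
  have h5 := (hη.zpow_eq_one_iff_dvd _).1 h4
  rw [hl] at h5
  by_contra hcon
  push Not at hcon
  rw [ho] at hcon h2
  obtain ⟨c, hc⟩ := h5
  push_cast at hc
  have hdz : (0 : ℤ) < d := by exact_mod_cast hd0
  have hmz : (m : ℤ) < l := by exact_mod_cast hm
  have h6 : (d : ℤ) * l * c < 0 := by rw [← hc]; nlinarith
  have h7 : -((d : ℤ) * l) < (d : ℤ) * l * c := by
    rw [← hc]
    nlinarith
  have hlz : (0 : ℤ) < l := by omega
  have hdl : (0 : ℤ) < (d : ℤ) * l := mul_pos hdz hlz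
  have h8 : c < 0 := by
    by_contra h9
    push Not at h9
    have := mul_nonneg hdl.le h9
    omega
  have h10 : -1 < c := by
    by_contra h9
    push Not at h9
    have := mul_le_mul_of_nonneg_left h9 hdl.le
    linarith
  omega

end

end Pool.Agent.K1H6.PQ
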