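import Pool.Agent.K1H6.PQ.Res

/-! Coordinates which are invariant under an automorphism, at a divisorial place; transport of forms
under isomorphisms. -/

set_option autoImplicit false
set_option linter.overlappingInstances false
set_option linter.unusedSectionVars false
set_option linter.unusedVariables false

open FF IntermediateField Pool.Agent.W619.PQ Pool.Agent.W619.PL Pool.Agent.W619.TW
  Pool.Agent.W603.LV Pool.Agent.W619.Y Pool.Agent.W672.PG Pool.Agent.W824.PG Pool.Agent.Y174
  Pool.Agent.K1H17.IS

namespace Pool.Agent.K1H6.PQ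

section

variable {k : Type} {K : Type} [Field k] [CharZero k] [Field K] [Algebra k K]

theorem tame {a : ℕ} (ha : Algebra.trdeg k K = a) (hess : Algebra.EssFiniteType k K)
    (g : K ≃ₐ[k] K) (hg : IsOfFinOrder g) {u : Place k K} (hu : IsDivisorial u a) :
    ∃ X : Fin a → K, IsTranscendenceBasis k X ∧ (∀ q, g (X q) = X q) ∧ (∀ q, u.Reg (X q)) ∧
      ∀ E : Fin a → Derivation k K K, (∀ p q, E p (X q) = if p = q then 1 else 0) →
        ∀ (μ : ℕ) (s : (Fin a → Derivation k K K) → K), IsPluriForm k K a μ s → ∀ γ : ℝ,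
          LogGe a u s γ → GeR u (γ - μ * ∑ q, (u.ord (X q) : ℝ)) (s E) := by
  classical
  have hfz : Finite (Subgroup.zpowers g) := hg.finite_zpowers
  set G' := Subgroup.zpowers g with hG'
  set N := fixedField G' with hN
  have hfin : FiniteDimensional N K := fixed_finite G'
  obtain ⟨hnN, z, hz⟩ := Pool.Agent.W721.PG.EFF2.exists_basis N a ha
  have hessN : Algebra.EssFiniteType k N := ess_down hess z hz
  obtain ⟨e, v, hov⟩ := Pool.Agent.W73.PG.PULL.exists_over' (K := N) u
  have hv : IsDivisorial v a := Pool.Agent.Y174.pDIVR k N K a a v u e hnN ha hov hu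
  obtain ⟨y, F, i0, hy, hF, ht, ht0, hyr, hpres, hP, hlog⟩ := exists_logframe hnN hessN hv
  choose ext hext hext2 hext3 using Pool.Agent.Y174.pEXT k N K a hnN
  refine ⟨fun q => (y q : K), ?_, fun q => (y q).2 ⟨g, Subgroup.mem_zpowers g⟩,
    fun q => hov.reg.2 (hyr q), ?_⟩
  · exact hy.algebraMap_comp
  · intro E hE μ s hs γ hl
    have hEF : E = fun p => ext (F p) := by
      funext p
      apply hext2
      intro f
      refine der_comp (F p) (E p) y hy (fun j => ?_) f
      change E p (y j : K) = ((F p (y j) : N) : K)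
      rw [hE, hF]
      split_ifs <;> rfl
    have hr : ∀ D : Fin a → Derivation k K K, (∀ j, Pres u (D j)) → GeR u (γ - μ) (s D) :=
      fun D hD => reg_of_log ha hess hu s hs hl D hD
    have h1 := ge_formR ha hess hnN hessN hov hv s hs hr ext hext hext2 F hpres
    rw [← hEF] at h1
    refine h1.mono ?_
    have h2 : (e : ℝ) ≤ ∑ q, (u.ord (y q : K) : ℝ) := by
      have h3 : (u.ord (y i0 : K) : ℝ) = e := by
        have h4 := hov.2 (y i0)
        rw [ht, mul_one] at h4
        exact_mod_cast h4
      rw [← h3]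
      refine Finset.single_le_sum (f := fun q => (u.ord (y q : K) : ℝ)) (fun q _ => ?_)
        (Finset.mem_univ i0)
      have h5 : u.Reg (y q : K) := hov.reg.2 (hyr q)
      rcases h5 with h5 | h5
      · change (0 : ℝ) ≤ (u.ord (y q : K) : ℝ)
        rw [h5, u.ord_zero]
        simp
      · exact_mod_cast h5
    have h3 := mul_le_mul_of_nonneg_left h2 (Nat.cast_nonneg (α := ℝ) μ)
    linarith

end

section

variable {k : Type} {L : Type} [Field k] [CharZero k] [Field L] [Algebra k L]

theorem pushDer_apply {F F' : IntermediateField k L} (e : F ≃ₐ[k] F') (D : Derivation k F F)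
    (z : F') : pushDer e D z = e (D (e.symm z)) := rfl

theorem pushDer_sum {F F' : IntermediateField k L} (e : F ≃ₐ[k] F') {n : ℕ}
    (A : Fin n → F) (D : Fin n → Derivation k F F) :
    pushDer e (∑ j, A j • D j) = ∑ j, e (A j) • pushDer e (D j) := by
  ext z
  rw [pushDer_apply, Pool.Agent.W721.PG.EFF2.der_sum, Pool.Agent.W721.PG.EFF2.der_sum, map_sum]
  congr 1
  refine Finset.sum_congr rfl fun j _ => ?_
  rw [map_mul, pushDer_apply]

/-- The transport of a form. -/
theorem pluri_push {F F' : IntermediateField k L} (e : F ≃ₐ[k] F') {n m : ℕ}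
    {s : (Fin n → Derivation k F' F') → F'} (hs : IsPluriForm k F' n m s) :
    IsPluriForm k F n m (fun D => e.symm (s fun i => pushDer e (D i))) := by
  intro A D
  have h1 := hs (A.map e) (fun i => pushDer e (D i))
  have h2 : (fun i => pushDer e (∑ j, A i j • D j)) =
      fun i => ∑ j, (A.map e) i j • pushDer e (D j) := by
    funext i
    rw [pushDer_sum]
    rfl
  change e.symm (s fun i => pushDer e (∑ j, A i j • D j)) = _
  rw [h2, h1, map_mul, map_pow]
  congr 2
  have h3 : (A.map e).det = e A.det := by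
    have := (e : F →+* F').map_det A
    exact this.symm
  rw [h3, AlgEquiv.symm_apply_apply]

/-- An isomorphism which preserves the order along `w`. -/
theorem logGe_push {F F' : IntermediateField k L} (e : F ≃ₐ[k] F') {w : Place k L}
    (he : ∀ z : F, w.ord (e z : L) = w.ord (z : L)) {u : Place k F} {u' : Place k F'} {c c' : ℕ}
    (hu : Over w u c) (hu' : Over w u' c') {n m : ℕ}
    {s : (Fin n → Derivation k F' F') → F'} {γ : ℝ} (hl : LogGe n u' s γ) :
    c = c' ∧ LogGe n u (fun D => e.symm (s fun i => pushDer e (D i))) γ := by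
  have h0 : ∀ z : F, (c' : ℤ) * u'.ord (e z) = c * u.ord z := by
    intro z
    have h1 := hu.2 z
    have h2 := hu'.2 (e z)
    change w.ord (z : L) = _ at h1
    change w.ord (e z : L) = _ at h2
    rw [← h1, ← h2, he]
  have hc0 : 0 < c := hu.1
  have hc0' : 0 < c' := hu'.1
  have hcc : c = c' := by
    obtain ⟨t, -, ht⟩ := u.surj
    obtain ⟨t', -, ht'⟩ := u'.surj
    have h1 := h0 t
    have h2 := h0 (e.symm t')
    rw [AlgEquiv.apply_symm_apply, ht', mul_one] at h2
    rw [ht, mul_one] at h1
    have h3 : (c' : ℤ) ∣ c := ⟨_, h1.symm⟩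
    have h4 : (c : ℤ) ∣ c' := ⟨_, h2⟩
    exact Nat.dvd_antisymm (by exact_mod_cast h4) (by exact_mod_cast h3)
  have hord : ∀ z : F, u'.ord (e z) = u.ord z := by
    intro z
    have h1 := h0 z
    rw [← hcc] at h1
    have : (c : ℤ) ≠ 0 := by exact_mod_cast hc0.ne'
    exact mul_left_cancel₀ this h1
  have hreg : ∀ z : F, u.Reg z → u'.Reg (e z) := by
    intro z hz
    rcases hz with hz | hz
    · left; rw [hz, map_zero]
    · right; rwa [hord]
  have hreg' : ∀ z : F', u'.Reg z → u.Reg (e.symm z) := by
    intro z hz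
    rcases hz with hz | hz
    · left; rw [hz, map_zero]
    · right
      rw [← hord, AlgEquiv.apply_symm_apply]
      exact hz
  refine ⟨hcc, fun D hD hlD => ?_⟩
  have h1 := hl (fun i => pushDer e (D i)) (fun j z hz => hreg _ (hD j _ (hreg' z hz)))
    (fun j z => by
      have h2 := hreg _ (hlD j (e.symm z))
      rw [map_div₀, AlgEquiv.apply_symm_apply] at h2
      exact h2)
  rcases h1 with h1 | h1
  · left
    change e.symm _ = 0
    rw [h1, map_zero]
  · right
    rw [← hord, AlgEquiv.apply_symm_apply]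
    exact h1

end

end Pool.Agent.K1H6.PQ
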